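import Mathlib

set_option autoImplicit false

namespace Pool.Agent.T9h25.TH

open Finset

section
variable {R : Type*} [CommRing R] {G : Type*} [CommGroup G] [Fintype G]

theorem eq_sum_single (x : MonoidAlgebra R G) :
    x = ∑ g : G, MonoidAlgebra.single g (x.coeff g) := by
  classical
  ext h
  rw [MonoidAlgebra.coeff_sum, Finsupp.finsetSum_apply]
  simp only [MonoidAlgebra.coeff_single, Finsupp.single_apply]
  simp

theorem coeff_mul' (x y : MonoidAlgebra R G) (u : G) :
    (x * y).coeff u = ∑ a : G, x.coeff a * y.coeff (a⁻¹ * u) := by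
  classical
  conv_lhs => rw [eq_sum_single x]
  rw [Finset.sum_mul, MonoidAlgebra.coeff_sum, Finsupp.finsetSum_apply]
  apply Finset.sum_congr rfl
  intro a _
  rw [MonoidAlgebra.coeff_single_mul_apply]

/-- The element with given coefficients. -/
noncomputable def mk (f : G → R) : MonoidAlgebra R G := ∑ g : G, MonoidAlgebra.single g (f g)

@[simp] theorem coeff_mk (f : G → R) (g : G) : (mk f).coeff g = f g := by
  classical
  rw [mk, MonoidAlgebra.coeff_sum, Finsupp.finsetSum_apply]
  simp only [MonoidAlgebra.coeff_single, Finsupp.single_apply]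
  simp

/-- The involution given by inversion of the group elements. -/
noncomputable def st : MonoidAlgebra R G →+* MonoidAlgebra R G :=
  MonoidAlgebra.mapDomainRingHom R (invMonoidHom : G →* G)

theorem st_single (g : G) (r : R) :
    st (MonoidAlgebra.single g r) = MonoidAlgebra.single g⁻¹ r := by
  rw [st, MonoidAlgebra.mapDomainRingHom_apply, MonoidAlgebra.mapDomain_single]
  rfl

theorem coeff_st (x : MonoidAlgebra R G) (g : G) : (st x).coeff g = x.coeff g⁻¹ := by
  classical
  conv_lhs => rw [eq_sum_single x]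
  rw [map_sum, MonoidAlgebra.coeff_sum, Finsupp.finsetSum_apply]
  simp only [st_single, MonoidAlgebra.coeff_single, Finsupp.single_apply]
  rw [Finset.sum_eq_single g⁻¹]
  · simp
  · intro b _ hb
    rw [if_neg]
    intro h
    apply hb
    rw [← h, inv_inv]
  · simp

theorem st_st (x : MonoidAlgebra R G) : st (st x) = x := by
  ext g
  rw [coeff_st, coeff_st, inv_inv]

end

section
variable {G : Type*} [CommGroup G] [Fintype G]

theorem selfconj_zero (q f : ℕ) [hq : Fact q.Prime] (h2 : 2 ≤ q ^ f)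
    (hinv : ∀ g : G, g ^ (q ^ f) = g⁻¹) (x : MonoidAlgebra (ZMod q) G)
    (h : x * st x = 0) : x = 0 := by
  classical
  have hchar : CharP (MonoidAlgebra (ZMod q) G) q := by
    apply charP_of_injective_ringHom (f := MonoidAlgebra.singleOneRingHom (R := ZMod q) (M := G))
    intro a b hab
    have := congrArg (fun z : MonoidAlgebra (ZMod q) G => z.coeff 1) hab
    simpa [MonoidAlgebra.singleOneRingHom] using this
  have key : ∀ z : MonoidAlgebra (ZMod q) G, z ^ (q ^ f) = st z := by
    intro z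
    conv_lhs => rw [eq_sum_single z]
    conv_rhs => rw [eq_sum_single z]
    rw [sum_pow_char_pow q f, map_sum]
    apply Finset.sum_congr rfl
    intro g _
    rw [MonoidAlgebra.single_pow, hinv, st_single, ZMod.pow_card_pow]
  have h3 : x ^ (q ^ f + 1) = 0 := by
    rw [pow_succ, key, mul_comm]; exact h
  have h4 : x ^ (q ^ f * q ^ f) = x := by
    rw [pow_mul, key, key, st_st]
  have h5 : q ^ f * q ^ f = (q ^ f + 1) + (q ^ f * q ^ f - (q ^ f + 1)) := by
    have : q ^ f + 1 ≤ q ^ f * q ^ f := by nlinarith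
    omega
  rw [h5, pow_add, h3, zero_mul] at h4
  exact h4.symm

theorem dvd_of_norm (q f : ℕ) [hq : Fact q.Prime] (h2 : 2 ≤ q ^ f)
    (hinv : ∀ g : G, g ^ (q ^ f) = g⁻¹) (x w : MonoidAlgebra ℤ G)
    (h : x * st x = (q : MonoidAlgebra ℤ G) * w) :
    ∃ x' : MonoidAlgebra ℤ G, x = (q : MonoidAlgebra ℤ G) * x' := by
  set φ := MonoidAlgebra.mapRingHom G (Int.castRingHom (ZMod q)) with hφ
  have hst : ∀ z : MonoidAlgebra ℤ G, φ (st z) = st (φ z) := by
    intro z
    ext g
    rw [coeff_st, hφ, MonoidAlgebra.coeff_mapRingHom, MonoidAlgebra.coeff_mapRingHom, coeff_st]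
  have h1 : φ x * st (φ x) = 0 := by
    rw [← hst, ← map_mul, h, map_mul, map_natCast]
    have : ((q : ℕ) : MonoidAlgebra (ZMod q) G) = 0 := by
      rw [MonoidAlgebra.natCast_def]; simp
    rw [this, zero_mul]
  have h3 := selfconj_zero q f h2 hinv (φ x) h1
  have h4 : ∀ g, (q : ℤ) ∣ x.coeff g := by
    intro g
    have := congrArg (fun z : MonoidAlgebra (ZMod q) G => z.coeff g) h3
    simp only [hφ, MonoidAlgebra.coeff_mapRingHom] at this
    rw [← ZMod.intCast_zmod_eq_zero_iff_dvd] 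
    simpa using this
  refine ⟨mk (fun g => x.coeff g / q), ?_⟩
  ext g
  rw [MonoidAlgebra.natCast_def, MonoidAlgebra.coeff_single_one_mul, coeff_mk]
  exact (Int.mul_ediv_cancel' (h4 g)).symm

theorem natCast_mul_cancel (q : ℕ) (hq : q ≠ 0) (x y : MonoidAlgebra ℤ G)
    (h : (q : MonoidAlgebra ℤ G) * x = (q : MonoidAlgebra ℤ G) * y) : x = y := by
  ext g
  have := congrArg (fun z : MonoidAlgebra ℤ G => z.coeff g) h
  simp only [MonoidAlgebra.natCast_def, MonoidAlgebra.coeff_single_one_mul] at this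
  have hq' : ((q : ℕ) : ℤ) ≠ 0 := by exact_mod_cast hq
  exact mul_left_cancel₀ hq' this

end

/-- The computation in the group ring. -/
theorem ring_identity {R : Type*} [CommRing R] (k d d' κ U : R)
    (h1 : d * d' = k ^ 2 + U - κ)
    (h2 : κ * κ = (k ^ 2 - k + 1) * κ + 2 * k * (2 * k - 1) * U)
    (h3 : κ * U = 2 * k * (k ^ 2 - k + 1) * U)
    (h4 : U * U = (k ^ 2 - k + 1) ^ 2 * U)
    (h5 : d * U = (k - 1) ^ 2 * U)
    (h6 : d' * U = (k - 1) ^ 2 * U) :
    (d * (1 - κ) + (2 * k - 1) * U) * (d' * (1 - κ) + (2 * k - 1) * U)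
      = k ^ 2 * (1 + (k - 2) * κ + (k ^ 2 + 2 * k - 1) * U) := by
  linear_combination (1 - κ) ^ 2 * h1 + k ^ 2 * h2 + (κ + 2 * k * (k ^ 2 - k + 1)) * h3 - 2 * h3
    + 2 * h2 - (κ * h2 + (k ^ 2 - k + 1) * h2 + 2 * k * (2 * k - 1) * h3)
    + (2 * k - 1) * ((1 - κ) * h5 + (1 - κ) * h6 - 2 * (k - 1) ^ 2 * h3)
    + (2 * k - 1) ^ 2 * h4

end Pool.Agent.T9h25.TH
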