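import Mathlib

set_option autoImplicit false

namespace Pool.Agent.T9h25.TH

open Finset

section
variable {G : Type*} [CommGroup G] [Finite G] {ι : Type*} [Fintype ι]

theorem exists_decomp (M : ℕ) (hG : Nat.card G = M ^ 2)
    (K : ι → Subgroup G) (hK : ∀ i, Nat.card (K i) = M)
    (hKK : ∀ i j, i ≠ j → K i ⊓ K j = ⊥) {i j : ι} (hij : i ≠ j) (g : G) :
    ∃ a ∈ K i, ∃ b ∈ K j, a * b = g := by
  have hc : Subgroup.IsComplement' (K i) (K j) := by
    apply Subgroup.isComplement'_of_card_mul_and_disjoint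
    · rw [hK, hK, hG, sq]
    · rw [disjoint_iff]; exact hKK i j hij
  obtain ⟨⟨a, b⟩, hab⟩ := hc.surjective g
  exact ⟨a, a.2, b, b.2, hab⟩

theorem torsion_count (k M : ℕ) (hk : 3 ≤ k)
    (hι : Fintype.card ι = 2 * k) (hG : Nat.card G = M ^ 2) (K : ι → Subgroup G)
    (hK : ∀ i, Nat.card (K i) = M)
    (hKK : ∀ i j, i ≠ j → K i ⊓ K j = ⊥) (t : ℕ) (ht : t.Prime) (htM : t ∣ M) :
    ∃ N b, N = t ^ b ∧ N ∣ M ∧ 2 * k ≤ N + 1 := by
  classical
  have : Fact t.Prime := ⟨ht⟩
  set T : Subgroup G := (powMonoidHom t : G →* G).ker with hT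
  have memT : ∀ g, g ∈ T ↔ g ^ t = 1 := by
    intro g; rw [hT, MonoidHom.mem_ker, powMonoidHom_apply]
  set V : ι → Subgroup G := fun i => K i ⊓ T with hV
  have hVpow : ∀ i, ∃ b, Nat.card (V i) = t ^ b := by
    intro i
    rw [← IsPGroup.iff_card]
    intro g
    refine ⟨1, ?_⟩
    rw [pow_one]
    ext
    exact (memT _).1 g.2.2
  have hV1 : ∀ i, 1 < Nat.card (V i) := by
    intro i
    obtain ⟨x, hx⟩ := exists_prime_orderOf_dvd_card' (G := K i) t (by rw [hK]; exact htM)
    rw [Subgroup.one_lt_card_iff_ne_bot]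
    intro hb
    have hx1 : (x : G) ∈ V i := by
      refine ⟨x.2, (memT _).2 ?_⟩
      have : x ^ t = 1 := by rw [← hx]; exact pow_orderOf_eq_one x
      exact_mod_cast congrArg Subtype.val this
    rw [hb, Subgroup.mem_bot] at hx1
    have : x = 1 := by ext; exact hx1
    rw [this, orderOf_one] at hx
    exact ht.one_lt.ne hx
  have hTV : ∀ i j, i ≠ j → Nat.card T = Nat.card (V i) * Nat.card (V j) := by
    intro i j hij
    rw [← Nat.card_prod]
    symm
    apply Nat.card_congr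
    refine Equiv.ofBijective (fun x => (⟨(x.1 : G) * (x.2 : G), T.mul_mem x.1.2.2 x.2.2.2⟩ : T)) ⟨?_, ?_⟩
    · rintro ⟨⟨a, ha⟩, ⟨b, hb⟩⟩ ⟨⟨a', ha'⟩, ⟨b', hb'⟩⟩ h
      simp only [Subtype.mk.injEq] at h
      have h1 : a'⁻¹ * a = b' * b⁻¹ := by
        rw [inv_mul_eq_iff_eq_mul, ← mul_assoc, eq_mul_inv_iff_mul_eq]
        exact h
      have h2 : a'⁻¹ * a ∈ K i ⊓ K j := by
        refine ⟨(K i).mul_mem ((K i).inv_mem ha'.1) ha.1, ?_⟩
        rw [h1]
        exact (K j).mul_mem hb'.1 ((K j).inv_mem hb.1)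
      rw [hKK i j hij, Subgroup.mem_bot] at h2
      have h3 : a = a' := (inv_mul_eq_one.1 h2).symm
      subst h3
      have h4 : b = b' := mul_left_cancel h
      subst h4
      rfl
    · rintro ⟨g, hg⟩
      obtain ⟨a, ha, b, hb, hab⟩ := exists_decomp M hG K hK hKK hij g
      have hgt := (memT g).1 hg
      rw [← hab, mul_pow] at hgt
      have h2 : a ^ t ∈ K i ⊓ K j := by
        refine ⟨(K i).pow_mem ha t, ?_⟩
        rw [mul_eq_one_iff_eq_inv.1 hgt]
        exact (K j).inv_mem ((K j).pow_mem hb t)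
      rw [hKK i j hij, Subgroup.mem_bot] at h2
      rw [h2, one_mul] at hgt
      exact ⟨⟨⟨a, ha, (memT a).2 h2⟩, ⟨b, hb, (memT b).2 hgt⟩⟩, by simp [hab]⟩
  -- all the cardinalities agree
  have hcard3 : ∀ i j : ι, ∃ l, l ≠ i ∧ l ≠ j := by
    intro i j
    by_contra hcon
    push Not at hcon
    have : (Finset.univ : Finset ι) ⊆ {i, j} := by
      intro l _
      rw [Finset.mem_insert, Finset.mem_singleton]
      by_cases hl : l = i
      · exact Or.inl hl
      · exact Or.inr (hcon l hl)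
    have h1 := Finset.card_le_card this
    have h2 : ({i, j} : Finset ι).card ≤ 2 := Finset.card_le_two
    rw [Finset.card_univ, hι] at h1
    omega
  have hall : ∀ i j, Nat.card (V i) = Nat.card (V j) := by
    intro i j
    obtain ⟨l, hli, hlj⟩ := hcard3 i j
    have h1 := hTV i l hli.symm
    have h2 := hTV j l hlj.symm
    have h3 : Nat.card (V i) * Nat.card (V l) = Nat.card (V j) * Nat.card (V l) := by rw [← h1, h2]
    exact Nat.eq_of_mul_eq_mul_right (by have := hV1 l; omega) h3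
  have hne : Nonempty ι := by
    rw [← Fintype.card_pos_iff, hι]; omega
  obtain ⟨i0⟩ := hne
  set N := Nat.card (V i0) with hN
  have hN1 : 1 < N := hV1 i0
  obtain ⟨b, hb⟩ := hVpow i0
  refine ⟨N, b, hb, ?_, ?_⟩
  · rw [← hK i0]; exact Subgroup.card_dvd_of_le inf_le_left
  · obtain ⟨l, hl, -⟩ := hcard3 i0 i0
    have hTN : Nat.card T = N * N := by
      rw [hTV i0 l hl.symm, ← hall i0 l]
    have : Fintype G := Fintype.ofFinite G
    -- disjoint union
    set A : ι → Finset G := fun i => (Finset.univ.filter (fun g => g ∈ V i)).erase 1 with hA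
    have hAcard : ∀ i, (A i).card = N - 1 := by
      intro i
      rw [hA]
      simp only
      rw [Finset.card_erase_of_mem (by simp [(V i).one_mem])]
      congr 1
      rw [hN, hall i0 i, Nat.card_eq_fintype_card, Fintype.card_subtype]
    have hAd : ∀ i ∈ (Finset.univ : Finset ι), ∀ j ∈ (Finset.univ : Finset ι), i ≠ j →
        Disjoint (A i) (A j) := by
      intro i _ j _ hij
      rw [Finset.disjoint_left]
      intro g hg hg'
      rw [hA] at hg hg'
      simp only [Finset.mem_erase, Finset.mem_filter, Finset.mem_univ, true_and] at hg hg'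
      have : g ∈ K i ⊓ K j := ⟨hg.2.1, hg'.2.1⟩
      rw [hKK i j hij, Subgroup.mem_bot] at this
      exact hg.1 this
    have hsub : (Finset.univ.biUnion A) ⊆ (Finset.univ.filter (fun g => g ∈ T)).erase 1 := by
      intro g hg
      rw [Finset.mem_biUnion] at hg
      obtain ⟨i, -, hi⟩ := hg
      rw [hA] at hi
      simp only [Finset.mem_erase, Finset.mem_filter, Finset.mem_univ, true_and] at hi ⊢
      exact ⟨hi.1, hi.2.2⟩
    have hle := Finset.card_le_card hsub
    rw [Finset.card_biUnion hAd, Finset.sum_congr rfl (fun i _ => hAcard i), Finset.sum_const,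
      Finset.card_univ, hι, Finset.card_erase_of_mem (by simp [T.one_mem])] at hle
    have hTc : (Finset.univ.filter (fun g => g ∈ T)).card = N * N := by
      rw [← hTN, Nat.card_eq_fintype_card, Fintype.card_subtype]
    rw [hTc, smul_eq_mul] at hle
    by_contra hlt
    push Not at hlt
    obtain ⟨n, hn⟩ : ∃ n, N = n + 2 := ⟨N - 2, by omega⟩
    rw [hn] at hle hlt
    have h1 : (n + 2) * (n + 2) - 1 = (n + 1) * (n + 3) := by
      have : (n + 2) * (n + 2) = (n + 1) * (n + 3) + 1 := by ring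
      omega
    have h2 : n + 2 - 1 = n + 1 := by omega
    rw [h1, h2, mul_comm] at hle
    have h3 := Nat.le_of_mul_le_mul_left hle (by omega : 0 < n + 1)
    omega

theorem prime_power (k M : ℕ) (hk : 3 ≤ k) (hM : M = k ^ 2 - k + 1)
    (hι : Fintype.card ι = 2 * k) (hG : Nat.card G = M ^ 2) (K : ι → Subgroup G)
    (hK : ∀ i, Nat.card (K i) = M)
    (hKK : ∀ i j, i ≠ j → K i ⊓ K j = ⊥) : ∃ r a, r.Prime ∧ M = r ^ a := by
  have hkk : k ≤ k ^ 2 := by nlinarith
  have hM1 : M ≠ 1 := by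
    rw [hM]
    have : 3 * k ≤ k ^ 2 := by nlinarith
    omega
  have hM0 : M ≠ 0 := by rw [hM]; omega
  obtain ⟨r, hr, hrM⟩ := Nat.exists_prime_and_dvd hM1
  refine ⟨r, M.primeFactorsList.length, hr, ?_⟩
  apply Nat.eq_prime_pow_of_unique_prime_dvd hM0
  intro t ht htM
  by_contra hne
  obtain ⟨N, b, hNb, hNM, hN⟩ := torsion_count k M hk hι hG K hK hKK t ht htM
  obtain ⟨N', b', hNb', hNM', hN'⟩ := torsion_count k M hk hι hG K hK hKK r hr hrM
  have hco : Nat.Coprime N N' := by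
    rw [hNb, hNb']
    exact Nat.Coprime.pow _ _ ((Nat.coprime_primes ht hr).2 hne)
  have h1 : N * N' ∣ M := hco.mul_dvd_of_dvd_of_dvd hNM hNM'
  have h2 := Nat.le_of_dvd (Nat.pos_of_ne_zero hM0) h1
  have h3 : M ≤ k ^ 2 := by rw [hM]; omega
  have h4 : (2 * k - 1) * (2 * k - 1) ≤ N * N' := Nat.mul_le_mul (by omega) (by omega)
  have h5 : k ^ 2 < (2 * k - 1) * (2 * k - 1) := by
    obtain ⟨n, rfl⟩ : ∃ n, k = n + 1 := ⟨k - 1, by omega⟩
    have : 2 * (n + 1) - 1 = 2 * n + 1 := by omega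
    rw [this]; nlinarith
  omega

end

end Pool.Agent.T9h25.TH
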