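import Pool.Agent.T9h25.TH.NT
import Pool.Agent.T9h25.TH.Spread
import Pool.Agent.T9h25.TH.Ring

set_option autoImplicit false

namespace Pool.Agent.T9h25.TH

open Finset

section
variable {G : Type*} [CommGroup G] [Fintype G]

theorem coeff_intCast_mul (n : ℤ) (x : MonoidAlgebra ℤ G) (g : G) :
    ((n : MonoidAlgebra ℤ G) * x).coeff g = n * x.coeff g := by
  rw [← zsmul_eq_mul, MonoidAlgebra.coeff_smul]
  simp

theorem coeff_natCast_mul (n : ℕ) (x : MonoidAlgebra ℤ G) (g : G) :
    ((n : MonoidAlgebra ℤ G) * x).coeff g = n * x.coeff g := by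
  have := coeff_intCast_mul (n : ℤ) x g
  simpa using this

open Classical in
/-- The indicator of a set. -/
noncomputable def ind (S : Set G) : MonoidAlgebra ℤ G := mk (fun g => if g ∈ S then 1 else 0)

open Classical in
theorem coeff_ind (S : Set G) (g : G) : (ind S).coeff g = if g ∈ S then 1 else 0 := by
  rw [ind, coeff_mk]

theorem mul_univ (x : MonoidAlgebra ℤ G) :
    x * ind Set.univ = ((∑ g, x.coeff g : ℤ) : MonoidAlgebra ℤ G) * ind Set.univ := by
  ext g
  rw [coeff_mul', coeff_intCast_mul]
  simp [coeff_ind]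

open Classical in
theorem sum_ind (S : Set G) : ∑ g, (ind S).coeff g = ((Finset.univ.filter (· ∈ S)).card : ℤ) := by
  simp [coeff_ind]

open Classical in
theorem card_filter_subgroup (H : Subgroup G) :
    (Finset.univ.filter (· ∈ (H : Set G))).card = Nat.card H := by
  rw [Nat.card_eq_fintype_card, Fintype.card_subtype]
  rfl

theorem ind_self_mul (H : Subgroup G) :
    ind (H : Set G) * ind (H : Set G) = (Nat.card H : MonoidAlgebra ℤ G) * ind (H : Set G) := by
  classical
  ext u
  rw [coeff_mul', coeff_natCast_mul]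
  simp only [coeff_ind]
  by_cases hu : u ∈ H
  · rw [if_pos (show u ∈ (H : Set G) from hu), mul_one, ← card_filter_subgroup]
    rw [Finset.card_filter]
    push_cast
    apply Finset.sum_congr rfl
    intro a _
    by_cases ha : a ∈ H
    · have : a⁻¹ * u ∈ (H : Set G) := H.mul_mem (H.inv_mem ha) hu
      simp [ha, this]
    · simp [ha]
  · rw [if_neg (show u ∉ (H : Set G) from hu), mul_zero]
    apply Finset.sum_eq_zero
    intro a _
    by_cases ha : a ∈ H
    · have : a⁻¹ * u ∉ (H : Set G) := by
        intro h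
        apply hu
        have := H.mul_mem ha h
        simpa using this
      simp [this]
    · simp [ha]

theorem st_ind (H : Subgroup G) : st (ind (H : Set G)) = ind (H : Set G) := by
  classical
  ext u
  rw [coeff_st, coeff_ind, coeff_ind]
  simp

theorem st_ind_univ : st (ind (Set.univ : Set G)) = ind Set.univ := by
  classical
  ext u
  rw [coeff_st, coeff_ind, coeff_ind]
  simp

end

section
variable {G : Type*} [CommGroup G] [Fintype G] {ι : Type*} [Fintype ι]

theorem ind_mul_ind (M : ℕ) (hG : Nat.card G = M ^ 2)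
    (K : ι → Subgroup G) (hK : ∀ i, Nat.card (K i) = M)
    (hKK : ∀ i j, i ≠ j → K i ⊓ K j = ⊥) {i j : ι} (hij : i ≠ j) :
    ind (K i : Set G) * ind (K j : Set G) = ind Set.univ := by
  classical
  ext u
  rw [coeff_mul', coeff_ind, if_pos (Set.mem_univ _)]
  simp only [coeff_ind]
  obtain ⟨a, ha, b, hb, hab⟩ := exists_decomp M hG K hK hKK hij u
  rw [Finset.sum_eq_single a]
  · have h1 : a⁻¹ * u = b := by rw [← hab]; simp
    rw [h1, if_pos (show a ∈ (K i : Set G) from ha), if_pos (show b ∈ (K j : Set G) from hb),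
      mul_one]
  · intro a' _ hne
    by_cases ha' : a' ∈ K i
    · have : a'⁻¹ * u ∉ (K j : Set G) := by
        intro h
        apply hne
        have h2 : a'⁻¹ * a ∈ K i ⊓ K j := by
          refine ⟨(K i).mul_mem ((K i).inv_mem ha') ha, ?_⟩
          have := (K j).mul_mem h ((K j).inv_mem hb)
          rw [← hab] at this
          simpa [mul_assoc] using this
        rw [hKK i j hij, Subgroup.mem_bot] at h2
        exact (inv_mul_eq_one.1 h2)
      rw [if_neg this, mul_zero]
    · rw [if_neg (show a' ∉ (K i : Set G) from ha'), zero_mul]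
  · intro h; exact absurd (Finset.mem_univ a) h

theorem no_diffset (k M : ℕ) (hk : 3 ≤ k) (hM : M = k ^ 2 - k + 1)
    (hι : Fintype.card ι = 2 * k) (hG : Nat.card G = M ^ 2) (K : ι → Subgroup G)
    (hK : ∀ i, Nat.card (K i) = M)
    (hKK : ∀ i j, i ≠ j → K i ⊓ K j = ⊥) (D : Set G)
    (hD0 : ∀ i, ∀ u ∈ K i, u ≠ 1 → ∀ b ∈ D, b * u ∉ D)
    (hD1 : ∀ u, (∀ i, u ∉ K i) → ∃! b, b ∈ D ∧ b * u ∈ D) : False := by
  classical
  have hkk : k ≤ k ^ 2 := by nlinarith
  have hMz : (M : ℤ) = (k : ℤ) ^ 2 - k + 1 := by rw [hM]; push_cast [Nat.cast_sub hkk]; ring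
  have hMR : (M : MonoidAlgebra ℤ G) = (k : MonoidAlgebra ℤ G) ^ 2 - k + 1 := by
    have := congrArg (fun z : ℤ => (z : MonoidAlgebra ℤ G)) hMz
    push_cast at this
    exact this
  have hne : Nonempty ι := by rw [← Fintype.card_pos_iff, hι]; omega
  obtain ⟨i0⟩ := hne
  set U : MonoidAlgebra ℤ G := ind Set.univ with hU
  set κ : MonoidAlgebra ℤ G := ∑ i, ind (K i : Set G) with hκ
  set d : MonoidAlgebra ℤ G := ind D with hd
  set n : ℕ := (Finset.univ.filter (· ∈ D)).card with hn
  have hUU : U * U = (k ^ 2 - k + 1) ^ 2 * U := by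
    rw [hU, mul_univ, sum_ind]
    simp only [Set.mem_univ, Finset.filter_true]
    rw [Finset.card_univ, ← Nat.card_eq_fintype_card, hG]
    push_cast
    rw [hMR]
  have hKU : ∀ i, ind (K i : Set G) * U = (M : MonoidAlgebra ℤ G) * U := by
    intro i
    rw [hU, mul_univ, sum_ind, card_filter_subgroup, hK]
    push_cast
    rfl
  have hκU : κ * U = 2 * k * (k ^ 2 - k + 1) * U := by
    rw [hκ, Finset.sum_mul, Finset.sum_congr rfl (fun i _ => hKU i), Finset.sum_const,
      Finset.card_univ, hι, nsmul_eq_mul, hMR]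
    push_cast
    ring
  have hκi : ∀ i, ind (K i : Set G) * κ = M * ind (K i : Set G) + (2 * k - 1) * U := by
    intro i
    rw [hκ, Finset.mul_sum, ← Finset.add_sum_erase _ _ (Finset.mem_univ i), ind_self_mul, hK]
    congr 1
    rw [Finset.sum_congr rfl (fun j hj => ind_mul_ind M hG K hK hKK
      (Ne.symm (Finset.ne_of_mem_erase hj))), Finset.sum_const,
      Finset.card_erase_of_mem (Finset.mem_univ i), Finset.card_univ, hι, nsmul_eq_mul,
      Nat.cast_sub (by omega : 1 ≤ 2 * k)]
    push_cast
    rfl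
  have hκκ : κ * κ = (k ^ 2 - k + 1) * κ + 2 * k * (2 * k - 1) * U := by
    conv_lhs => rw [hκ, Finset.sum_mul, ← hκ]
    rw [Finset.sum_congr rfl (fun i _ => hκi i), Finset.sum_add_distrib, ← Finset.mul_sum, ← hκ,
      Finset.sum_const, Finset.card_univ, hι, nsmul_eq_mul, hMR]
    push_cast
    ring
  have hκcoef : ∀ u, κ.coeff u = ∑ i, (if u ∈ (K i : Set G) then (1 : ℤ) else 0) := by
    intro u
    rw [hκ, MonoidAlgebra.coeff_sum, Finsupp.finsetSum_apply]
    simp only [coeff_ind]
  have hκ1 : κ.coeff 1 = 2 * k := by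
    rw [hκcoef]
    simp [(K _).one_mem, hι]
  have hdd : d * st d = (((n : ℤ) + 2 * k - 1 : ℤ) : MonoidAlgebra ℤ G) * 1 + U - κ := by
    ext u
    rw [MonoidAlgebra.coeff_sub, MonoidAlgebra.coeff_add, Finsupp.sub_apply, Finsupp.add_apply,
      coeff_mul', coeff_intCast_mul, hU, coeff_ind, if_pos (Set.mem_univ _)]
    simp only [coeff_st, hd, coeff_ind, mul_inv_rev, inv_inv]
    by_cases hu1 : u = 1
    · subst hu1
      rw [hκ1, MonoidAlgebra.coeff_one_one]
      have : ∑ a : G, (if a ∈ D then (1 : ℤ) else 0) * (if 1⁻¹ * a ∈ D then 1 else 0) = n := by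
        rw [hn, Finset.card_filter]
        push_cast
        apply Finset.sum_congr rfl
        intro a _
        by_cases ha : a ∈ D <;> simp [ha]
      rw [this]
      ring
    · have h10 : (1 : MonoidAlgebra ℤ G).coeff u = 0 := by
        rw [MonoidAlgebra.one_def, MonoidAlgebra.coeff_single, Finsupp.single_apply,
          if_neg (Ne.symm hu1)]
      rw [h10, hκcoef]
      by_cases hu : ∃ i, u ∈ K i
      · obtain ⟨i, hi⟩ := hu
        have h1 : ∑ j, (if u ∈ (K j : Set G) then (1 : ℤ) else 0) = 1 := by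
          rw [Finset.sum_eq_single i]
          · rw [if_pos (show u ∈ (K i : Set G) from hi)]
          · intro j _ hj
            rw [if_neg]
            intro hju
            have : u ∈ K j ⊓ K i := ⟨hju, hi⟩
            rw [hKK j i hj, Subgroup.mem_bot] at this
            exact hu1 this
          · intro h; exact absurd (Finset.mem_univ i) h
        rw [h1]
        have h2 : ∑ a : G, (if a ∈ D then (1 : ℤ) else 0) * (if u⁻¹ * a ∈ D then 1 else 0) = 0 := by
          apply Finset.sum_eq_zero
          intro a _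
          by_cases ha : a ∈ D
          · by_cases hb : u⁻¹ * a ∈ D
            · exfalso
              have := hD0 i u hi hu1 _ hb
              apply this
              rw [mul_comm, mul_inv_cancel_left]
              exact ha
            · simp [hb]
          · simp [ha]
        rw [h2]
        ring
      · push Not at hu
        have h1 : ∑ j, (if u ∈ (K j : Set G) then (1 : ℤ) else 0) = 0 := by
          apply Finset.sum_eq_zero
          intro j _
          rw [if_neg (show u ∉ (K j : Set G) from hu j)]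
        rw [h1]
        obtain ⟨b, ⟨hb1, hb2⟩, hb3⟩ := hD1 u hu
        have h2 : ∑ a : G, (if a ∈ D then (1 : ℤ) else 0) * (if u⁻¹ * a ∈ D then 1 else 0) = 1 := by
          rw [Finset.sum_eq_single (b * u)]
          · have : u⁻¹ * (b * u) = b := by rw [mul_comm b u, inv_mul_cancel_left]
            rw [this, if_pos hb2, if_pos hb1, mul_one]
          · intro a _ hne
            by_cases ha : a ∈ D
            · by_cases hb : u⁻¹ * a ∈ D
              · exfalso
                apply hne
                have := hb3 (u⁻¹ * a) ⟨hb, by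
                  rw [mul_comm, mul_inv_cancel_left]; exact ha⟩
                rw [← this, mul_comm, mul_inv_cancel_left]
              · simp [hb]
            · simp [ha]
          · intro h; exact absurd (Finset.mem_univ _) h
        rw [h2]
        ring
  have hU1 : U.coeff 1 = 1 := by rw [hU, coeff_ind, if_pos (Set.mem_univ _)]
  have hdU : d * U = ((n : ℤ) : MonoidAlgebra ℤ G) * U := by
    rw [hU, mul_univ, hd, sum_ind]
  have hstdU : st d * U = ((n : ℤ) : MonoidAlgebra ℤ G) * U := by
    have := congrArg st hdU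
    rw [map_mul, map_mul, hU, st_ind_univ, map_intCast] at this
    exact this
  -- the size of `D`
  have hnz : (n : ℤ) = ((k : ℤ) - 1) ^ 2 := by
    have h1 : (d * st d) * U = ((n : ℤ) * n : ℤ) * U := by
      rw [mul_assoc, hstdU, mul_left_comm, hdU, ← mul_assoc]
      push_cast
      ring
    rw [hdd] at h1
    have h2 : ((((n : ℤ) + 2 * k - 1 : ℤ) : MonoidAlgebra ℤ G) * 1 + U - κ) * U
        = ((((n : ℤ) + 2 * k - 1) + (k ^ 2 - k + 1) ^ 2 - 2 * k * (k ^ 2 - k + 1) : ℤ) :
            MonoidAlgebra ℤ G) * U := by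
      push_cast
      linear_combination hUU - hκU
    rw [h2] at h1
    have h3 := congrArg (fun z : MonoidAlgebra ℤ G => z.coeff 1) h1
    simp only [coeff_intCast_mul, hU1, mul_one] at h3
    have h4 : ((n : ℤ) - (k - 1) ^ 2) * (n + (k - 1) ^ 2 - 1) = 0 := by
      linear_combination -h3
    rcases mul_eq_zero.1 h4 with h5 | h5
    · linarith
    · exfalso
      have : (2 : ℤ) ≤ (k : ℤ) - 1 := by
        have : (3 : ℤ) ≤ k := by exact_mod_cast hk
        linarith
      have hn0 : (0 : ℤ) ≤ n := Int.natCast_nonneg n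
      nlinarith
  have h1' : d * st d = (k : MonoidAlgebra ℤ G) ^ 2 + U - κ := by
    rw [hdd, hnz]
    push_cast
    ring
  have h5' : d * U = ((k : MonoidAlgebra ℤ G) - 1) ^ 2 * U := by
    rw [hdU, hnz]; push_cast; rfl
  have h6' : st d * U = ((k : MonoidAlgebra ℤ G) - 1) ^ 2 * U := by
    rw [hstdU, hnz]; push_cast; rfl
  have hstκ : st κ = κ := by
    rw [hκ, map_sum]
    exact Finset.sum_congr rfl (fun i _ => st_ind (K i))
  -- coefficients of `d * ind (K i)` are at most one
  have hdK : ∀ i g, (d * ind (K i : Set G)).coeff g ≤ 1 ∧ 0 ≤ (d * ind (K i : Set G)).coeff g := by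
    intro i g
    rw [coeff_mul']
    simp only [hd, coeff_ind]
    have hnn : 0 ≤ ∑ a : G, (if a ∈ D then (1 : ℤ) else 0) *
        (if a⁻¹ * g ∈ (K i : Set G) then 1 else 0) := by
      apply Finset.sum_nonneg
      intro a _
      split_ifs <;> norm_num
    refine ⟨?_, hnn⟩
    by_cases hex : ∃ a, a ∈ D ∧ a⁻¹ * g ∈ K i
    · obtain ⟨a, ha, hag⟩ := hex
      rw [Finset.sum_eq_single a]
      · split_ifs <;> norm_num
      · intro b _ hba
        by_cases hb : b ∈ D
        · have : b⁻¹ * g ∉ (K i : Set G) := by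
            intro hbg
            have hm : b⁻¹ * a ∈ K i := by
              have := (K i).mul_mem hbg ((K i).inv_mem hag)
              simpa [mul_assoc] using this
            have hne1 : b⁻¹ * a ≠ 1 := by
              intro h
              exact hba (inv_mul_eq_one.1 h)
            apply hD0 i (b⁻¹ * a) hm hne1 b hb
            rw [mul_inv_cancel_left]
            exact ha
          rw [if_neg this, mul_zero]
        · rw [if_neg hb, zero_mul]
      · intro h; exact absurd (Finset.mem_univ _) h
    · push Not at hex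
      rw [Finset.sum_eq_zero]
      · norm_num
      · intro a _
        by_cases ha : a ∈ D
        · rw [if_neg (show a⁻¹ * g ∉ (K i : Set G) from hex a ha), mul_zero]
        · rw [if_neg ha, zero_mul]
  -- the exponent
  have hexp : ∀ g : G, g ^ M = 1 := by
    intro g
    have hcard3 : ∃ j : ι, j ≠ i0 := by
      by_contra hcon
      push Not at hcon
      have : (Finset.univ : Finset ι) ⊆ {i0} := by
        intro l _
        rw [Finset.mem_singleton]
        exact hcon l
      have h1 := Finset.card_le_card this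
      rw [Finset.card_univ, hι, Finset.card_singleton] at h1
      omega
    obtain ⟨j, hj⟩ := hcard3
    obtain ⟨a, ha, b, hb, hab⟩ := exists_decomp M hG K hK hKK hj g
    have h1 : ∀ i, ∀ a ∈ K i, a ^ M = 1 := by
      intro i a ha
      have := pow_card_eq_one' (G := K i) (x := ⟨a, ha⟩)
      rw [hK] at this
      have h2 := congrArg Subtype.val this
      simpa using h2
    rw [← hab, mul_pow, h1 _ a ha, h1 _ b hb, mul_one]
  have hinv : ∀ q f, M ∣ q ^ f + 1 → ∀ g : G, g ^ (q ^ f) = g⁻¹ := by
    intro q f hdvd g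
    obtain ⟨c, hc⟩ := hdvd
    have : g ^ (q ^ f + 1) = 1 := by rw [hc, pow_mul, hexp, one_pow]
    rw [pow_succ] at this
    exact mul_eq_one_iff_eq_inv.1 this
  have hM7 : 7 ≤ M := by
    have h1 : 3 * k ≤ k ^ 2 := by nlinarith
    omega
  have h2q : ∀ q f, M ∣ q ^ f + 1 → 2 ≤ q ^ f := by
    intro q f hdvd
    have := Nat.le_of_dvd (by omega) hdvd
    omega
  obtain ⟨r, a, hr, hMr⟩ := prime_power k M hk hM hι hG K hK hKK
  rcases exists_selfconj k M r a hk hM hr hMr with ⟨q, f, c, hq, hdvd, hck, hc3, hcq⟩ | ⟨f, h3k, hdvd⟩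
  · -- the main case
    set y : MonoidAlgebra ℤ G := d * (1 - κ) + (2 * k - 1) * U with hy
    have hsty : st y = st d * (1 - κ) + (2 * k - 1) * U := by
      have h2k : (2 * (k : MonoidAlgebra ℤ G) - 1) = (((2 * k - 1 : ℤ)) : MonoidAlgebra ℤ G) := by
        push_cast; ring
      rw [hy, h2k, map_add, map_mul, map_sub, map_one, hstκ, map_mul, map_intCast, hU, st_ind_univ]
    have hyy : y * st y = k ^ 2 * (1 + (k - 2) * κ + (k ^ 2 + 2 * k - 1) * U) := by
      rw [hsty, hy]
      exact ring_identity _ _ _ _ _ h1' hκκ hκU hUU h5' h6'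
    have : Fact q.Prime := ⟨hq⟩
    -- divisibility of all coefficients by `c`
    have hcy : ∃ y', y = (c : MonoidAlgebra ℤ G) * y' := by
      rcases hcq with rfl | ⟨rfl, rfl⟩
      · obtain ⟨m, hm⟩ := hck
        apply dvd_of_norm c f (h2q c f hdvd) (hinv c f hdvd) y
          ((m ^ 2 * c) * (1 + (k - 2) * κ + (k ^ 2 + 2 * k - 1) * U))
        rw [hyy, hm]
        push_cast
        ring
      · obtain ⟨m, hm⟩ := hck
        obtain ⟨y1, hy1⟩ := dvd_of_norm 2 f (h2q 2 f hdvd) (hinv 2 f hdvd) y
          ((8 * m ^ 2) * (1 + (k - 2) * κ + (k ^ 2 + 2 * k - 1) * U)) (by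
            rw [hyy, hm]
            push_cast
            ring)
        obtain ⟨y2, hy2⟩ := dvd_of_norm 2 f (h2q 2 f hdvd) (hinv 2 f hdvd) y1
          ((2 * m ^ 2) * (1 + (k - 2) * κ + (k ^ 2 + 2 * k - 1) * U)) (by
            apply natCast_mul_cancel 4 (by norm_num)
            have e1 : y * st y = 4 * (y1 * st y1) := by
              rw [hy1, map_mul, map_natCast]
              push_cast
              ring
            push_cast
            rw [← e1, hyy, hm]
            push_cast
            ring)
        refine ⟨y2, ?_⟩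
        rw [hy1, hy2]
        push_cast
        ring
    obtain ⟨y', hy'⟩ := hcy
    -- lower bound
    have hlow : ∀ g, -1 ≤ y.coeff g := by
      intro g
      have e1 : y = d - ∑ i, d * ind (K i : Set G) + (((2 * k - 1 : ℤ)) : MonoidAlgebra ℤ G) * U := by
        rw [hy, mul_sub, mul_one, hκ, Finset.mul_sum]
        push_cast
        ring
      rw [e1, MonoidAlgebra.coeff_add, MonoidAlgebra.coeff_sub, MonoidAlgebra.coeff_sum,
        Finsupp.add_apply, Finsupp.sub_apply, Finsupp.finsetSum_apply, coeff_intCast_mul, hU,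
        coeff_ind Set.univ, if_pos (Set.mem_univ _)]
      have e2 : ∑ i, (d * ind (K i : Set G)).coeff g ≤ ∑ _i : ι, (1 : ℤ) :=
        Finset.sum_le_sum (fun i _ => (hdK i g).1)
      rw [Finset.sum_const, Finset.card_univ, hι] at e2
      have e3 : 0 ≤ d.coeff g := by
        rw [hd, coeff_ind]
        split_ifs <;> norm_num
      simp only [nsmul_eq_mul, mul_one] at e2
      push_cast at e2
      linarith
    have hsq : ∀ g, 3 * y.coeff g ≤ (y.coeff g) ^ 2 := by
      intro g
      have e1 := hlow g
      have e2 : y.coeff g = c * y'.coeff g := by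
        rw [hy', coeff_natCast_mul]
      have hc3' : (3 : ℤ) ≤ c := by exact_mod_cast hc3
      rcases lt_trichotomy (y'.coeff g) 0 with h | h | h
      · exfalso
        have : (c : ℤ) * y'.coeff g ≤ c * (-1) := by
          apply mul_le_mul_of_nonneg_left (by linarith) (by linarith)
        rw [← e2] at this
        linarith
      · rw [e2, h]; norm_num
      · have : (c : ℤ) * 1 ≤ c * y'.coeff g := by
          apply mul_le_mul_of_nonneg_left (by linarith) (by linarith)
        rw [← e2] at this
        nlinarith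
    -- the sum of the coefficients
    have hsum : ∑ g, y.coeff g = (k : ℤ) ^ 4 := by
      have e1 : y * U = (((k : ℤ) ^ 4 : ℤ) : MonoidAlgebra ℤ G) * U := by
        rw [hy]
        push_cast
        linear_combination (1 - κ) * h5' + (2 * k - 1) * hUU - ((k : MonoidAlgebra ℤ G) - 1) ^ 2 * hκU
      have e2 := mul_univ y
      rw [← hU, e1] at e2
      have e3 := congrArg (fun z : MonoidAlgebra ℤ G => z.coeff 1) e2
      simp only [coeff_intCast_mul, hU1, mul_one] at e3
      exact e3.symm
    have hsum2 : ∑ g, (y.coeff g) ^ 2 = (k : ℤ) ^ 2 * (3 * k ^ 2 - 2 * k) := by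
      have e2 : (k : MonoidAlgebra ℤ G) ^ 2 * (1 + (k - 2) * κ + (k ^ 2 + 2 * k - 1) * U)
          = (((k : ℤ) ^ 2 : ℤ) : MonoidAlgebra ℤ G) * 1
            + (((k : ℤ) ^ 2 * (k - 2) : ℤ) : MonoidAlgebra ℤ G) * κ
            + (((k : ℤ) ^ 2 * (k ^ 2 + 2 * k - 1) : ℤ) : MonoidAlgebra ℤ G) * U := by
        push_cast
        ring
      have e4 : ((k : MonoidAlgebra ℤ G) ^ 2 * (1 + (k - 2) * κ + (k ^ 2 + 2 * k - 1) * U)).coeff 1
          = (k : ℤ) ^ 2 * (3 * k ^ 2 - 2 * k) := by
        rw [e2, MonoidAlgebra.coeff_add, MonoidAlgebra.coeff_add, Finsupp.add_apply,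
          Finsupp.add_apply, coeff_intCast_mul, coeff_intCast_mul, coeff_intCast_mul, hU1, hκ1,
          MonoidAlgebra.coeff_one_one]
        ring
      have e3 : ∑ g, (y.coeff g) ^ 2 = (y * st y).coeff 1 := by
        rw [coeff_mul']
        apply Finset.sum_congr rfl
        intro g _
        rw [coeff_st, mul_one, inv_inv, sq]
      rw [e3, hyy, e4]
    have hfin : 3 * ∑ g, y.coeff g ≤ ∑ g, (y.coeff g) ^ 2 := by
      rw [Finset.mul_sum]
      exact Finset.sum_le_sum (fun g _ => hsq g)
    rw [hsum, hsum2] at hfin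
    have hk' : (3 : ℤ) ≤ k := by exact_mod_cast hk
    have : (0 : ℤ) < (k : ℤ) ^ 3 := by positivity
    nlinarith
  · -- the case of a divisor 3 of `k - 1`
    set z : MonoidAlgebra ℤ G := d * ind (K i0 : Set G) with hz
    have hzz : z * st z = (3 : ℕ) * ((((k - 1) / 3 : ℕ) : MonoidAlgebra ℤ G) *
        ((M : MonoidAlgebra ℤ G) * (ind (K i0 : Set G) + (k - 2) * U))) := by
      have e0 : st z = st d * ind (K i0 : Set G) := by rw [hz, map_mul, st_ind]
      have e1 : ((3 : ℕ) : MonoidAlgebra ℤ G) * (((k - 1) / 3 : ℕ) : MonoidAlgebra ℤ G)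
          = (k : MonoidAlgebra ℤ G) - 1 := by
        have := Nat.mul_div_cancel' h3k
        rw [← Nat.cast_mul, this, Nat.cast_sub (by omega)]
        simp
      have e2 := ind_self_mul (K i0)
      rw [hK] at e2
      rw [e0, hz, ← mul_assoc ((3 : ℕ) : MonoidAlgebra ℤ G), e1]
      have e3 := hκi i0
      have e4 := hKU i0
      rw [hMR] at e2 e3 e4 ⊢
      linear_combination (ind (K i0 : Set G)) * (ind (K i0 : Set G)) * h1'
        + ((k : MonoidAlgebra ℤ G) ^ 2 + U - κ) * e2
        + ((k : MonoidAlgebra ℤ G) ^ 2 - k + 1) * (e4 - e3)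
    have : Fact (Nat.Prime 3) := ⟨Nat.prime_three⟩
    obtain ⟨z', hz'⟩ := dvd_of_norm 3 f (h2q 3 f hdvd) (hinv 3 f hdvd) z _ hzz
    have hDne : ∃ g, g ∈ D := by
      by_contra hcon
      push Not at hcon
      have : n = 0 := by
        rw [hn, Finset.card_eq_zero, Finset.filter_eq_empty_iff]
        intro x _
        exact hcon x
      rw [this] at hnz
      have hk' : (3 : ℤ) ≤ k := by exact_mod_cast hk
      push_cast at hnz
      have h8 : (0 : ℤ) < (k : ℤ) - 1 := by linarith
      have h9 := pow_pos h8 2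
      linarith
    obtain ⟨g, hg⟩ := hDne
    have e1 := (hdK i0 g).1
    have e2 : 1 ≤ z.coeff g := by
      rw [hz, coeff_mul']
      have : (ind D).coeff g * (ind (K i0 : Set G)).coeff (g⁻¹ * g) = 1 := by
        rw [coeff_ind, coeff_ind, if_pos hg, if_pos]
        · norm_num
        · rw [inv_mul_cancel]; exact (K i0).one_mem
      rw [← this, hd]
      apply Finset.single_le_sum (f := fun a => (ind D).coeff a * (ind (K i0 : Set G)).coeff (a⁻¹ * g))
      · intro a _
        simp only [coeff_ind]
        split_ifs <;> norm_num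
      · exact Finset.mem_univ g
    have e3 : z.coeff g = 1 := le_antisymm e1 e2
    rw [hz', coeff_natCast_mul] at e3
    push_cast at e3
    omega

end

end Pool.Agent.T9h25.TH
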