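import Pool.Agent.T9h25.TH.Plane3
import Pool.Agent.T9h25.TH.Diffset

set_option autoImplicit false

namespace Pool.Agent.T9h25.TH

open Configuration

section
variable {P L G : Type} [Membership P L] [ProjectivePlane P L] [Group G]
    [MulAction G P] [MulAction G L] {k M : ℕ} {ι : Type} [Fintype ι] {x0 : P} {pt : ι → P}

theorem reg_inj (o : Orb P L G k M ι x0 pt) {a b : G} (he : a • x0 = b • x0) : a = b := by
  have h1 : b⁻¹ * a ∈ MulAction.stabilizer G x0 := by
    rw [MulAction.mem_stabilizer_iff, mul_smul, he, inv_smul_smul]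
  rw [o.reg0, Subgroup.mem_bot] at h1
  exact (inv_mul_eq_one.1 h1).symm

theorem D_zero (o : Orb P L G k M ι x0 pt) {l0 : L} (hl0 : MulAction.stabilizer G l0 = ⊥)
    (i : ι) (u : G) (hu : u ∈ MulAction.stabilizer G (pt i)) (hu1 : u ≠ 1) (b : G)
    (hb : b • x0 ∈ l0) (hbu : (b * u) • x0 ∈ l0) : False := by
  obtain ⟨l, hl, hxl⟩ := exists_TL o i o.reg0
  have h1 : u • x0 ∈ l := by
    have := (o.h.inc u x0 l).1 hxl
    rwa [hl u hu] at this
  have h2 := (o.h.inc b x0 l).1 hxl
  have h3 := (o.h.inc b (u • x0) l).1 h1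
  rw [mul_smul] at hbu
  have hne : b • x0 ≠ b • (u • x0) := by
    intro he
    have := MulAction.injective b he
    have h4 : (1 : G) • x0 = u • x0 := by rw [one_smul]; exact this
    exact hu1 (reg_inj o h4).symm
  have h5 : l0 = b • l := line_uniq hne hb hbu h2 h3
  obtain ⟨g, hg, hg1⟩ := exists_K o i
  have h6 : g • (b • l) = b • l := o.h.ql g l _ (MulAction.mem_orbit l b) (hl g hg)
  rw [← h5] at h6
  have h7 : g ∈ MulAction.stabilizer G l0 := h6
  rw [hl0, Subgroup.mem_bot] at h7
  exact hg1 h7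

theorem D_one (o : Orb P L G k M ι x0 pt) {l0 : L} (hl0 : MulAction.stabilizer G l0 = ⊥)
    (hreg : ∀ l : L, MulAction.stabilizer G l = ⊥ → l ∈ MulAction.orbit G l0)
    (u : G) (hu : ∀ i, u ∉ MulAction.stabilizer G (pt i)) :
    ∃! b : G, b • x0 ∈ l0 ∧ (b * u) • x0 ∈ l0 := by
  have hne : x0 ≠ u • x0 := by
    intro he
    have h4 : (1 : G) • x0 = u • x0 := by rw [one_smul]; exact he
    have h5 := reg_inj o h4
    have hne : Nonempty ι := by
      rw [← Fintype.card_pos_iff, o.cι]; have := o.h.three; omega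
    obtain ⟨i⟩ := hne
    apply hu i
    rw [← h5]
    exact Subgroup.one_mem _
  obtain ⟨n, hn1, hn2⟩ := exists_join (L := L) hne
  have hnst : MulAction.stabilizer G n = ⊥ := by
    by_contra hcon
    obtain ⟨g, hg⟩ := Subgroup.ne_bot_iff_exists_ne_one.1 hcon
    obtain ⟨i, hi⟩ := TL_of_fix o (g := (g : G)) (fun he => hg (Subtype.ext he)) g.2
    have hx0 : x0 ∉ MulAction.orbit G (pt i) := by
      intro hmem
      have h1 := stab_eq o.h hmem
      rw [o.reg0] at h1
      have h2 := o.cK i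
      rw [← h1, Subgroup.card_bot] at h2
      have := o.h.M_ge
      omega
    have hux0 : u • x0 ∉ MulAction.orbit G (pt i) := by
      intro hmem
      apply hx0
      have := MulAction.mem_orbit_of_mem_orbit u⁻¹ hmem
      rwa [inv_smul_smul] at this
    obtain ⟨a, ha, hau⟩ := off_trans o hi hn1 hx0 hn2 hux0
    have := reg_inj o hau
    rw [this] at ha
    exact hu i ha
  obtain ⟨c, hc⟩ := hreg n hnst
  have hc' : c • l0 = n := hc
  have hcn : c⁻¹ • n = l0 := by rw [← hc', inv_smul_smul]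
  refine ⟨c⁻¹, ⟨?_, ?_⟩, ?_⟩
  · have := (o.h.inc c⁻¹ x0 n).1 hn1
    rwa [hcn] at this
  · have := (o.h.inc c⁻¹ (u • x0) n).1 hn2
    rwa [hcn, ← mul_smul] at this
  · rintro b ⟨hb1, hb2⟩
    rw [mul_smul] at hb2
    have h1 := (o.h.inc b x0 n).1 hn1
    have h2 := (o.h.inc b (u • x0) n).1 hn2
    have h3 : b • n = l0 := by
      refine line_uniq (p := b • x0) (q := b • (u • x0)) ?_ h1 h2 hb1 hb2
      intro he
      exact hne (MulAction.injective b he)
    have h4 : c * b ∈ MulAction.stabilizer G n := by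
      rw [MulAction.mem_stabilizer_iff, mul_smul, h3, hc']
    rw [hnst, Subgroup.mem_bot] at h4
    exact eq_inv_of_mul_eq_one_right h4

end

theorem no_plane {P L G : Type} [Membership P L] [ProjectivePlane P L] [Group G]
    [MulAction G P] [MulAction G L] {k M : ℕ} (h : Hyp P L G k M) : False := by
  obtain ⟨x0, ι, hι, pt, h1, h2, h3, h4, h5, h6, h7⟩ := orbit_structure h
  have o : Orb P L G k M ι x0 pt := ⟨h, h1, h2, h3, h4, h5, h6, h7⟩
  obtain ⟨l0, hl0, hreg⟩ := exists_reg_line o
  have hfin := h.finG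
  letI : Fintype G := Fintype.ofFinite G
  letI : CommGroup G := { (inferInstance : Group G) with mul_comm := G_comm o }
  exact no_diffset k M h.three h.hM o.cι h.card (fun i => MulAction.stabilizer G (pt i)) o.cK
    (fun i j hij => K_inf o hij) {g : G | g • x0 ∈ l0}
    (fun i u hu hu1 b hb hbu => D_zero o hl0 i u hu hu1 b hb hbu)
    (fun u hu => D_one o hl0 hreg u hu)

end Pool.Agent.T9h25.TH
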