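import Mathlib

set_option autoImplicit false

namespace Pool.Agent.T9h25.TH

/-- A product of residues of odd order has odd order. -/
theorem odd_ord_of_primes (M : ℕ) : ∀ n : ℕ, n ≠ 0 →
    (∀ q, q.Prime → q ∣ n → ∃ m, Odd m ∧ q ^ m ≡ 1 [MOD M]) →
    ∃ m, Odd m ∧ n ^ m ≡ 1 [MOD M] := by
  intro n
  induction n using Nat.strong_induction_on with
  | _ n ih =>
    intro hn h
    rcases Nat.eq_or_lt_of_le (Nat.one_le_iff_ne_zero.2 hn) with h1 | h1
    · exact ⟨1, odd_one, by rw [← h1]; simp [Nat.ModEq]⟩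
    · obtain ⟨q, hq, hqn⟩ := Nat.exists_prime_and_dvd (ne_of_gt h1)
      obtain ⟨c, rfl⟩ := hqn
      have hc0 : c ≠ 0 := by rintro rfl; simp at hn
      have hc : c < q * c := by
        have := hq.two_le
        nlinarith [Nat.pos_of_ne_zero hc0]
      obtain ⟨m1, o1, e1⟩ := h q hq (dvd_mul_right _ _)
      obtain ⟨m2, o2, e2⟩ := ih c hc hc0 (fun q' hq' hd => h q' hq' (Dvd.dvd.mul_left hd _))
      refine ⟨m1 * m2, o1.mul o2, ?_⟩
      have h3 : (q ^ m1) ^ m2 ≡ 1 ^ m2 [MOD M] := e1.pow m2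
      have h4 : (c ^ m2) ^ m1 ≡ 1 ^ m1 [MOD M] := e2.pow m1
      rw [one_pow, ← pow_mul] at h3 h4
      rw [mul_pow]
      have h5 := h3.mul h4
      rw [mul_comm m2 m1] at h5
      simpa using h5

/-- In `ℤ/M`, for `M` an odd prime power, a residue without odd exponent has `-1` as a power. -/
theorem exists_neg_one (M r a q : ℕ) (hr : r.Prime) (hr2 : r ≠ 2) (hM : M = r ^ a) (hM1 : 2 < M)
    (hq : Nat.Coprime q M) (h : ∀ m, Odd m → ¬ q ^ m ≡ 1 [MOD M]) :
    ∃ f, M ∣ q ^ f + 1 := by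
  haveI : NeZero M := ⟨by omega⟩
  haveI : Fact (1 < M) := ⟨by omega⟩
  set u : (ZMod M)ˣ := ZMod.unitOfCoprime q hq with hu
  have hcast : ∀ m, ((u ^ m : (ZMod M)ˣ) : ZMod M) = ((q ^ m : ℕ) : ZMod M) := by
    intro m; simp [hu]
  have hno : ∀ m, Odd m → u ^ m ≠ 1 := by
    intro m hm he
    apply h m hm
    rw [← ZMod.natCast_eq_natCast_iff]
    rw [← hcast, he]; simp
  have hpos : 0 < orderOf u := orderOf_pos u
  have heven : Even (orderOf u) := by
    rcases Nat.even_or_odd (orderOf u) with he | ho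
    · exact he
    · exact absurd (pow_orderOf_eq_one u) (hno _ ho)
  obtain ⟨f, hf⟩ := heven
  have hf0 : 0 < f := by omega
  refine ⟨f, ?_⟩
  set w : ZMod M := ((q ^ f : ℕ) : ZMod M) with hw
  have hne : u ^ f ≠ 1 := by
    apply pow_ne_one_of_lt_orderOf (by omega) (by omega)
  have hsq : u ^ f * u ^ f = 1 := by rw [← pow_add, ← hf, pow_orderOf_eq_one]
  have hn1 : ¬ (M ∣ q ^ f - 1) := by
    intro hd
    apply hne
    ext
    rw [hcast]
    have h1 : 1 ≤ q ^ f := Nat.one_le_iff_ne_zero.2 (by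
      intro h0
      have hq0 : q = 0 := by
        by_contra hq0
        exact (pow_ne_zero f hq0) h0
      rw [hq0] at hq
      simp at hq
      omega)
    have h2 : (((q ^ f - 1 : ℕ)) : ZMod M) = 0 := (ZMod.natCast_eq_zero_iff _ _).2 hd
    rw [Nat.cast_sub h1, sub_eq_zero] at h2
    rw [h2]; simp
  have h1 : 1 ≤ q ^ f := Nat.one_le_iff_ne_zero.2 (by
      intro h0
      have hq0 : q = 0 := by
        by_contra hq0
        exact (pow_ne_zero f hq0) h0
      rw [hq0] at hq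
      simp at hq
      omega)
  have hdvd : M ∣ (q ^ f - 1) * (q ^ f + 1) := by
    rw [← ZMod.natCast_eq_zero_iff, Nat.cast_mul, Nat.cast_sub h1]
    have h3 : ((u ^ f * u ^ f : (ZMod M)ˣ) : ZMod M) = 1 := by rw [hsq]; simp
    rw [Units.val_mul, hcast] at h3
    push_cast at h3 ⊢
    linear_combination h3
  by_cases hr1 : r ∣ q ^ f - 1
  · -- then `r` does not divide the other factor
    have hnr : ¬ r ∣ q ^ f + 1 := by
      intro hd
      have : r ∣ (q ^ f + 1) - (q ^ f - 1) := Nat.dvd_sub hd hr1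
      have h2 : (q ^ f + 1) - (q ^ f - 1) = 2 := by omega
      rw [h2] at this
      exact hr2 ((Nat.prime_dvd_prime_iff_eq hr Nat.prime_two).1 this)
    have hco : Nat.Coprime M (q ^ f + 1) := by
      rw [hM]
      exact Nat.Coprime.pow_left a ((Nat.Prime.coprime_iff_not_dvd hr).2 hnr)
    exact absurd (hco.dvd_of_dvd_mul_right hdvd) hn1
  · have hco : Nat.Coprime M (q ^ f - 1) := by
      rw [hM]
      exact Nat.Coprime.pow_left a ((Nat.Prime.coprime_iff_not_dvd hr).2 hr1)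
    exact hco.dvd_of_dvd_mul_left hdvd

theorem three_no_odd (M : ℕ) (h3 : M % 3 = 1) (h4 : M % 4 = 3) :
    ∀ m, Odd m → ¬ 3 ^ m ≡ 1 [MOD M] := by
  intro m hm he
  have hJ : jacobiSym (3 : ℕ) M = -1 := by
    rw [jacobiSym.quadratic_reciprocity_three_mod_four (by norm_num) h4, jacobiSym.mod_left]
    have : ((M : ℤ) % (3 : ℕ)) = 1 := by omega
    rw [this, jacobiSym.one_left]
  have h1 : jacobiSym (((3 ^ m : ℕ)) : ℤ) M = 1 := by
    have h2 : (((3 ^ m : ℕ) : ℤ)) % (M : ℤ) = (1 : ℤ) % (M : ℤ) := by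
      have := he
      unfold Nat.ModEq at this
      exact_mod_cast this
    rw [jacobiSym.mod_left, h2, ← jacobiSym.mod_left, jacobiSym.one_left]
  push_cast at h1 hJ
  rw [jacobiSym.pow_left, hJ, hm.neg_one_pow] at h1
  norm_num at h1

theorem k_no_odd (k M : ℕ) (hk : 3 ≤ k) (hM : M = k ^ 2 - k + 1) :
    ∀ m, Odd m → ¬ k ^ m ≡ 1 [MOD M] := by
  intro m hm he
  have hkk : k ≤ k ^ 2 := by nlinarith
  have h3 : M ∣ k ^ 3 + 1 := by
    refine ⟨k + 1, ?_⟩
    rw [hM]
    zify [hkk]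
    ring
  have hM2 : 2 < M := by
    rw [hM]
    have : 3 * k ≤ k ^ 2 := by nlinarith
    omega
  have h4 : ((k : ZMod M)) ^ 3 = -1 := by
    have := (ZMod.natCast_eq_zero_iff (k ^ 3 + 1) M).2 h3
    push_cast at this
    linear_combination this
  have h5 : ((k : ZMod M)) ^ m = 1 := by
    have := (ZMod.natCast_eq_natCast_iff (k ^ m) 1 M).2 he
    push_cast at this
    exact this
  have h6 : (((k : ZMod M)) ^ 3) ^ m = 1 := by
    rw [← pow_mul, mul_comm, pow_mul, h5, one_pow]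
  rw [h4, hm.neg_one_pow] at h6
  have h7 : ((2 : ℕ) : ZMod M) = 0 := by
    push_cast
    linear_combination -h6
  rw [ZMod.natCast_eq_zero_iff] at h7
  have := Nat.le_of_dvd (by norm_num) h7
  omega

/-- The prime that is used. -/
theorem exists_selfconj (k M r a : ℕ) (hk : 3 ≤ k) (hM : M = k ^ 2 - k + 1) (hr : r.Prime)
    (hMr : M = r ^ a) :
    (∃ q f c, q.Prime ∧ M ∣ q ^ f + 1 ∧ c ∣ k ∧ 3 ≤ c ∧ (c = q ∨ (q = 2 ∧ c = 4))) ∨
      (∃ f, 3 ∣ k - 1 ∧ M ∣ 3 ^ f + 1) := by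
  have hkk : k ≤ k ^ 2 := by nlinarith
  have hM2 : 2 < M := by
    rw [hM]
    have : 3 * k ≤ k ^ 2 := by nlinarith
    omega
  have hkM : k * (k - 1) + 1 = M := by
    rw [hM]; zify [hkk, show 1 ≤ k by omega]; ring
  have hModd : M % 2 = 1 := by
    have := Nat.even_mul_pred_self k
    rcases this with ⟨c, hc⟩
    omega
  have hr2 : r ≠ 2 := by
    rintro rfl
    have ha : a ≠ 0 := by rintro rfl; simp at hMr; omega
    have : 2 ∣ M := by rw [hMr]; exact dvd_pow_self 2 ha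
    omega
  have hcop : ∀ q, q ∣ k → Nat.Coprime q M := by
    intro q hq
    have : Nat.Coprime (k * (k - 1)) M := by
      rw [← hkM]; simp
    exact Nat.Coprime.coprime_dvd_left (hq.trans (dvd_mul_right _ _)) this
  have hcop' : ∀ q, q ∣ k - 1 → Nat.Coprime q M := by
    intro q hq
    have : Nat.Coprime (k * (k - 1)) M := by
      rw [← hkM]; simp
    exact Nat.Coprime.coprime_dvd_left (hq.trans (dvd_mul_left _ _)) this
  by_cases hk4 : k % 4 = 2
  · -- the prime 3
    have hM4 : M % 4 = 3 := by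
      obtain ⟨t, ht⟩ : ∃ t, k = 4 * t + 2 := ⟨k / 4, by omega⟩
      rw [← hkM, ht]
      have : (4 * t + 2) * (4 * t + 2 - 1) + 1 = 4 * (4 * t ^ 2 + 3 * t) + 3 := by
        have : 4 * t + 2 - 1 = 4 * t + 1 := by omega
        rw [this]; ring
      rw [this]; omega
    have hk3 : k % 3 ≠ 2 := by
      intro h
      have h3M : 3 ∣ M := by
        obtain ⟨t, ht⟩ : ∃ t, k = 3 * t + 2 := ⟨k / 3, by omega⟩
        rw [← hkM, ht]
        have : (3 * t + 2) * (3 * t + 2 - 1) + 1 = 3 * (3 * t ^ 2 + 3 * t + 1) := by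
          have : 3 * t + 2 - 1 = 3 * t + 1 := by omega
          rw [this]; ring
        rw [this]; exact dvd_mul_right _ _
      rw [hMr] at h3M
      have h3r : 3 ∣ r := Nat.prime_three.dvd_of_dvd_pow h3M
      have hr3 : r = 3 := ((Nat.prime_dvd_prime_iff_eq Nat.prime_three hr).1 h3r).symm
      -- 9 does not divide M
      have h9 : ¬ 9 ∣ M := by
        obtain ⟨t, ht⟩ : ∃ t, k = 3 * t + 2 := ⟨k / 3, by omega⟩
        rw [← hkM, ht]
        have : (3 * t + 2) * (3 * t + 2 - 1) + 1 = 9 * (t ^ 2 + t) + 3 := by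
          have : 3 * t + 2 - 1 = 3 * t + 1 := by omega
          rw [this]; ring
        rw [this]; omega
      rcases Nat.lt_or_ge a 2 with ha | ha
      · interval_cases a
        · simp at hMr; omega
        · rw [hr3] at hMr
          -- M = 3
          have : 7 ≤ M := by
            rw [← hkM]
            have : 3 * 2 ≤ k * (k - 1) := Nat.mul_le_mul hk (by omega)
            omega
          omega
      · apply h9
        rw [hMr, hr3]
        exact (show (9 : ℕ) = 3 ^ 2 by norm_num) ▸ pow_dvd_pow 3 ha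
    have hM3 : M % 3 = 1 := by
      rcases (show k % 3 = 0 ∨ k % 3 = 1 by omega) with h | h
      · obtain ⟨t, ht⟩ : ∃ t, k = 3 * t := ⟨k / 3, by omega⟩
        rw [← hkM, ht, mul_assoc]; omega
      · obtain ⟨t, ht⟩ : ∃ t, k - 1 = 3 * t := ⟨(k - 1) / 3, by omega⟩
        rw [← hkM, ht, mul_left_comm]; omega
    have hno := three_no_odd M hM3 hM4
    rcases (show k % 3 = 0 ∨ k % 3 = 1 by omega) with h | h
    · left
      have hd : 3 ∣ k := Nat.dvd_of_mod_eq_zero h
      obtain ⟨f, hf⟩ := exists_neg_one M r a 3 hr hr2 hMr hM2 (hcop 3 hd) hno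
      exact ⟨3, f, 3, Nat.prime_three, hf, hd, le_rfl, Or.inl rfl⟩
    · right
      have hd : 3 ∣ k - 1 := by omega
      obtain ⟨f, hf⟩ := exists_neg_one M r a 3 hr hr2 hMr hM2 (hcop' 3 hd) hno
      exact ⟨f, hd, hf⟩
  · left
    have : ∃ q, q.Prime ∧ q ∣ k ∧ ∀ m, Odd m → ¬ q ^ m ≡ 1 [MOD M] := by
      by_contra hcon
      push Not at hcon
      obtain ⟨m, hm, he⟩ := odd_ord_of_primes M k (by omega) (fun q hq hd => hcon q hq hd)
      exact k_no_odd k M hk hM m hm he
    obtain ⟨q, hq, hqk, hno⟩ := this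
    obtain ⟨f, hf⟩ := exists_neg_one M r a q hr hr2 hMr hM2 (hcop q hqk) hno
    by_cases hq2 : q = 2
    · subst hq2
      exact ⟨2, f, 4, hq, hf, by omega, by norm_num, Or.inr ⟨rfl, rfl⟩⟩
    · have : 3 ≤ q := by
        have := hq.two_le
        omega
      exact ⟨q, f, q, hq, hf, hqk, this, Or.inl rfl⟩

end Pool.Agent.T9h25.TH
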