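import Mathlib

set_option autoImplicit false

namespace Pool.Agent.T9h25.TH

open Configuration

section plane
variable {P L : Type} [Membership P L] [ProjectivePlane P L]

theorem exists_join {p q : P} (h : p ≠ q) : ∃ l : L, p ∈ l ∧ q ∈ l :=
  ⟨HasLines.mkLine h, HasLines.mkLine_ax h⟩

theorem exists_meet {l m : L} (h : l ≠ m) : ∃ p : P, p ∈ l ∧ p ∈ m :=
  ⟨HasPoints.mkPoint h, HasPoints.mkPoint_ax h⟩

theorem line_uniq {p q : P} {l m : L} (h : p ≠ q) (h1 : p ∈ l) (h2 : q ∈ l) (h3 : p ∈ m)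
    (h4 : q ∈ m) : l = m :=
  (Nondegenerate.eq_or_eq h1 h2 h3 h4).resolve_left h

theorem point_uniq {p q : P} {l m : L} (h : l ≠ m) (h1 : p ∈ l) (h3 : p ∈ m) (h2 : q ∈ l)
    (h4 : q ∈ m) : p = q :=
  (Nondegenerate.eq_or_eq h1 h2 h3 h4).resolve_right h

variable (P L) in
theorem finite_lines [Finite P] : Finite L := by
  apply Finite.of_injective (fun l : L => {p : P | p ∈ l})
  intro l l' h
  by_contra hne
  have hmem : ∀ p : P, p ∈ l ↔ p ∈ l' := fun p => Set.ext_iff.1 h p
  obtain ⟨Z, hZ1, hZ2⟩ := exists_meet (P := P) hne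
  obtain ⟨m, hm⟩ := Nondegenerate.exists_line (P := P) (L := L) Z
  have hml : m ≠ l := by rintro rfl; exact hm hZ1
  obtain ⟨W, hW1, hW2⟩ := exists_meet (P := P) hml
  have : W = Z := point_uniq hne hW2 ((hmem W).1 hW2) hZ1 hZ2
  rw [this] at hW1
  exact hm hW1

end plane

/-- The hypotheses of type (h). -/
structure Hyp (P L G : Type) [Membership P L] [ProjectivePlane P L] [Group G]
    [MulAction G P] [MulAction G L] (k M : ℕ) : Prop where
  fin : Finite P
  ord : ProjectivePlane.order P L = k ^ 2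
  three : 3 ≤ k
  hM : M = k ^ 2 - k + 1
  faith : ∀ g : G, (∀ p : P, g • p = p) → g = 1
  inc : ∀ (g : G) (p : P) (l : L), p ∈ l ↔ g • p ∈ g • l
  qp : ∀ (g : G) (p q : P), q ∈ MulAction.orbit G p → g • p = p → g • q = q
  ql : ∀ (g : G) (l m : L), m ∈ MulAction.orbit G l → g • l = l → g • m = m
  card : Nat.card G = M ^ 2
  orbs : Nat.card (MulAction.orbitRel.Quotient G P) = 2 * k + 1
  nofp : ∀ p : P, ∃ g : G, g • p ≠ p
  nofl : ∀ l : L, ∃ g : G, g • l ≠ l

section
variable {P L G : Type} [Membership P L] [ProjectivePlane P L] [Group G]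
    [MulAction G P] [MulAction G L] {k M : ℕ}

theorem fix_join (h : Hyp P L G k M) {g : G} {p q : P} {l : L} (hpq : p ≠ q) (hp : g • p = p)
    (hq : g • q = q) (hpl : p ∈ l) (hql : q ∈ l) : g • l = l := by
  have h1 := (h.inc g p l).1 hpl
  have h2 := (h.inc g q l).1 hql
  rw [hp] at h1
  rw [hq] at h2
  exact (line_uniq hpq hpl hql h1 h2).symm

theorem fix_meet (h : Hyp P L G k M) {g : G} {p : P} {l m : L} (hlm : l ≠ m) (hl : g • l = l)
    (hm : g • m = m) (hpl : p ∈ l) (hpm : p ∈ m) : g • p = p := by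
  have h1 := (h.inc g p l).1 hpl
  have h2 := (h.inc g p m).1 hpm
  rw [hl] at h1
  rw [hm] at h2
  exact (point_uniq hlm hpl hpm h1 h2).symm

theorem exists_moved (h : Hyp P L G k M) {g : G} (hg : g ≠ 1) {x : P} (hx : g • x = x) :
    ∃ (m : L) (X : P), g • m = m ∧ X ∈ m ∧ g • X ≠ X := by
  by_contra hcon
  push Not at hcon
  obtain ⟨h0, hh0⟩ := h.nofp x
  have hx' : g • (h0 • x) = h0 • x := h.qp g x _ (MulAction.mem_orbit x h0) hx
  obtain ⟨l, hl1, hl2⟩ := exists_join (L := L) (Ne.symm hh0)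
  have hgl : g • l = l := fix_join h (Ne.symm hh0) hx hx' hl1 hl2
  obtain ⟨h1, hh1⟩ := h.nofl l
  have hgl' : g • (h1 • l) = h1 • l := h.ql g l _ (MulAction.mem_orbit l h1) hgl
  have hA : ∃ A : P, A ∈ h1 • l ∧ A ∉ l := by
    by_contra hc
    push Not at hc
    have e1 := (h.inc h1 x l).1 hl1
    have e2 := (h.inc h1 (h0 • x) l).1 hl2
    apply hh1
    refine line_uniq (p := h1 • x) (q := h1 • (h0 • x)) ?_ e1 e2 (hc _ e1) (hc _ e2)
    intro he
    exact hh0 (MulAction.injective h1 he).symm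
  obtain ⟨A, hA1, hA2⟩ := hA
  have hgA : g • A = A := hcon _ A hgl' hA1
  apply hg
  apply h.faith
  intro X
  by_cases hXA : X = A
  · rw [hXA, hgA]
  · obtain ⟨m, hm1, hm2⟩ := exists_join (L := L) (Ne.symm hXA)
    have hml : m ≠ l := by rintro rfl; exact hA2 hm1
    obtain ⟨Y, hY1, hY2⟩ := exists_meet (P := P) hml
    have hgY : g • Y = Y := hcon l Y hgl hY2
    have hYA : A ≠ Y := by rintro rfl; exact hA2 hY2
    have hgm : g • m = m := fix_join h hYA hgA hgY hm1 hY1
    exact hcon m X hgm hm2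

theorem card_on_line (h : Hyp P L G k M) (l : L) : Nat.card {p : P // p ∈ l} = k ^ 2 + 1 := by
  have := h.fin
  have := finite_lines P L
  have h1 := ProjectivePlane.pointCount_eq (P := P) (L := L) l
  rw [h.ord] at h1
  exact h1

theorem card_through_point (h : Hyp P L G k M) (p : P) : Nat.card {l : L // p ∈ l} = k ^ 2 + 1 := by
  have := h.fin
  have := finite_lines P L
  have h1 := ProjectivePlane.lineCount_eq (P := P) (L := L) p
  rw [h.ord] at h1
  exact h1

open Classical in
/-- A collineation of the group which fixes a point and is not the identity fixes at most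
`k ^ 2 + k + 1` points. -/
theorem fix_bound (h : Hyp P L G k M) {g : G} (hg : g ≠ 1) {x : P} (hx : g • x = x) :
    Nat.card {y : P // g • y = y} ≤ k ^ 2 + k + 1 := by
  have := h.fin
  have := finite_lines P L
  have : Fintype P := Fintype.ofFinite P
  have : Fintype L := Fintype.ofFinite L
  obtain ⟨m, X, hgm, hXm, hgX⟩ := exists_moved h hg hx
  set F : Finset P := Finset.univ.filter (fun y => g • y = y) with hF
  have memF : ∀ y, y ∈ F ↔ g • y = y := by intro y; rw [hF]; simp
  have hcF : Nat.card {y : P // g • y = y} = F.card := by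
    rw [Nat.card_eq_fintype_card, Fintype.card_subtype]
  -- points off `m`
  have hoff : (F.filter (fun y => y ∉ m)).card ≤ k ^ 2 := by
    have hj : ∀ y : P, ∃ l : L, X ∈ l ∧ y ∈ l := by
      intro y
      by_cases hy : X = y
      · exact ⟨m, hXm, hy ▸ hXm⟩
      · exact exists_join hy
    choose j hj1 hj2 using hj
    have hcard : ((Finset.univ.filter (fun l : L => X ∈ l)).erase m).card = k ^ 2 := by
      rw [Finset.card_erase_of_mem (by simp [hXm])]
      have := card_through_point h X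
      rw [Nat.card_eq_fintype_card, Fintype.card_subtype] at this
      rw [this]; rfl
    rw [← hcard]
    apply Finset.card_le_card_of_injOn j
    · intro y hy
      rw [Finset.mem_coe, Finset.mem_filter] at hy
      rw [Finset.mem_coe, Finset.mem_erase, Finset.mem_filter]
      refine ⟨?_, Finset.mem_univ _, hj1 y⟩
      intro he
      apply hy.2
      rw [← he]
      exact hj2 y
    · intro y hy y' hy' he
      rw [Finset.mem_coe, Finset.mem_filter] at hy hy'
      by_contra hne
      have e1 : y' ∈ j y := by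
        have := hj2 y'
        rwa [← he] at this
      have e2 : g • (j y) = j y :=
        fix_join h hne ((memF y).1 hy.1) ((memF y').1 hy'.1) (hj2 y) e1
      have e3 : j y ≠ m := by
        intro he3
        apply hy.2
        rw [← he3]
        exact hj2 y
      exact hgX (fix_meet h e3 e2 hgm (hj1 y) hXm)
  -- points on `m`
  have hon : (F.filter (fun y => y ∈ m)).card ≤ k + 1 := by
    by_contra hlt
    push Not at hlt
    obtain ⟨h1, hh1⟩ := h.nofl m
    have hgm' : g • (h1 • m) = h1 • m := h.ql g m _ (MulAction.mem_orbit m h1) hgm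
    obtain ⟨C0, hC1, hC2⟩ := exists_meet (P := P) hh1
    have hinvar : ∀ y, g • y = y → g • (h1 • y) = h1 • y := fun y hy =>
      h.qp g y _ (MulAction.mem_orbit y h1) hy
    have hS1 : 1 < ((F.filter (fun y => y ∈ m)).erase (h1⁻¹ • C0)).card := by
      have := Finset.pred_card_le_card_erase (s := F.filter (fun y => y ∈ m)) (a := h1⁻¹ • C0)
      have := h.three
      omega
    obtain ⟨D1, hD1, D2, hD2, hD12⟩ := Finset.one_lt_card.1 hS1
    rw [Finset.mem_erase, Finset.mem_filter] at hD1 hD2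
    have hAfacts : ∀ E : P, E ≠ h1⁻¹ • C0 ∧ E ∈ F ∧ E ∈ m →
        g • (h1 • E) = h1 • E ∧ h1 • E ∈ h1 • m ∧ h1 • E ∉ m := by
      rintro E ⟨hE1, hE2, hE3⟩
      refine ⟨hinvar E ((memF E).1 hE2), (h.inc h1 E m).1 hE3, ?_⟩
      intro hE4
      apply hE1
      rw [eq_inv_smul_iff]
      exact point_uniq hh1 ((h.inc h1 E m).1 hE3) hE4 hC1 hC2
    obtain ⟨hA1, hA2, hA3⟩ := hAfacts D1 hD1
    obtain ⟨hB1, hB2, hB3⟩ := hAfacts D2 hD2
    set A := h1 • D1 with hAdef
    set B := h1 • D2 with hBdef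
    have hAB : A ≠ B := by
      intro he
      exact hD12 (MulAction.injective h1 he)
    set T := (F.filter (fun y => y ∈ m)).erase C0 with hT
    have hTc : k + 1 ≤ T.card := by
      have := Finset.pred_card_le_card_erase (s := F.filter (fun y => y ∈ m)) (a := C0)
      rw [← hT] at this
      omega
    have memT : ∀ C, C ∈ T ↔ C ≠ C0 ∧ g • C = C ∧ C ∈ m := by
      intro C
      rw [hT, Finset.mem_erase, Finset.mem_filter, memF]
    have hjA : ∀ C : P, ∃ l : L, A ∈ l ∧ C ∈ l := by
      intro C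
      by_cases hC : A = C
      · exact ⟨h1 • m, hA2, hC ▸ hA2⟩
      · exact exists_join hC
    have hjB : ∀ C : P, ∃ l : L, B ∈ l ∧ C ∈ l := by
      intro C
      by_cases hC : B = C
      · exact ⟨h1 • m, hB2, hC ▸ hB2⟩
      · exact exists_join hC
    choose jA hjA1 hjA2 using hjA
    choose jB hjB1 hjB2 using hjB
    have hY : ∀ z : P × P, z ∈ T.offDiag → ∃ Y : P, (g • Y = Y ∧ Y ∉ m) ∧ Y ∈ jA z.1 ∧
        Y ∈ jB z.2 ∧ Y ≠ A ∧ Y ≠ B := by
      rintro ⟨C, C'⟩ hz
      rw [Finset.mem_offDiag] at hz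
      obtain ⟨hC, hC', hne⟩ := hz
      simp only at hC hC' hne ⊢
      rw [memT] at hC hC'
      have hAC : A ≠ C := by intro he; exact hA3 (he ▸ hC.2.2)
      have hBC : B ≠ C' := by intro he; exact hB3 (he ▸ hC'.2.2)
      have hgA : g • jA C = jA C := fix_join h hAC hA1 hC.2.1 (hjA1 C) (hjA2 C)
      have hgB : g • jB C' = jB C' := fix_join h hBC hB1 hC'.2.1 (hjB1 C') (hjB2 C')
      have hAm : jA C ≠ m := by intro he; exact hA3 (he ▸ hjA1 C)
      have hBm : jB C' ≠ m := by intro he; exact hB3 (he ▸ hjB1 C')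
      have hAB' : jA C ≠ jB C' := by
        intro he
        apply hAm
        refine line_uniq hne (hjA2 C) ?_ hC.2.2 hC'.2.2
        rw [he]; exact hjB2 C'
      obtain ⟨Y, hY1, hY2⟩ := exists_meet (P := P) hAB'
      refine ⟨Y, ⟨fix_meet h hAB' hgA hgB hY1 hY2, ?_⟩, hY1, hY2, ?_, ?_⟩
      · intro hYm
        have e1 : Y = C := point_uniq hAm hY1 hYm (hjA2 C) hC.2.2
        have e2 : Y = C' := point_uniq hBm hY2 hYm (hjB2 C') hC'.2.2
        exact hne (e1.symm.trans e2)
      · rintro rfl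
        have e1 : jB C' = h1 • m := line_uniq hAB hY2 (hjB1 C') hA2 hB2
        apply hC'.1
        apply point_uniq hh1 _ hC'.2.2 hC1 hC2
        rw [← e1]; exact hjB2 C'
      · rintro rfl
        have e1 : jA C = h1 • m := line_uniq hAB (hjA1 C) hY1 hA2 hB2
        apply hC.1
        apply point_uniq hh1 _ hC.2.2 hC1 hC2
        rw [← e1]; exact hjA2 C
    have : Nonempty P := ⟨x⟩
    choose! Y hYF hYA hYB hYneA hYneB using hY
    have hinj : T.offDiag.card ≤ (F.filter (fun y => y ∉ m)).card := by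
      apply Finset.card_le_card_of_injOn Y
      · intro z hz
        rw [Finset.mem_coe] at hz
        rw [Finset.mem_coe, Finset.mem_filter, memF]
        exact hYF z hz
      · intro z hz z' hz' he
        rw [Finset.mem_coe] at hz hz'
        have hz1 := Finset.mem_offDiag.1 hz
        have hz1' := Finset.mem_offDiag.1 hz'
        have m1 := (memT _).1 hz1.1
        have m2 := (memT _).1 hz1.2.1
        have m1' := (memT _).1 hz1'.1
        have m2' := (memT _).1 hz1'.2.1
        ext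
        · have e1 : jA z.1 = jA z'.1 := by
            refine line_uniq (hYneA z hz) (hYA z hz) (hjA1 _) ?_ (hjA1 _)
            rw [he]; exact hYA z' hz'
          have hAm : jA z.1 ≠ m := by intro he'; exact hA3 (he' ▸ hjA1 _)
          refine point_uniq hAm (hjA2 _) m1.2.2 ?_ m1'.2.2
          rw [e1]; exact hjA2 _
        · have e1 : jB z.2 = jB z'.2 := by
            refine line_uniq (hYneB z hz) (hYB z hz) (hjB1 _) ?_ (hjB1 _)
            rw [he]; exact hYB z' hz'
          have hBm : jB z.2 ≠ m := by intro he'; exact hB3 (he' ▸ hjB1 _)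
          refine point_uniq hBm (hjB2 _) m2.2.2 ?_ m2'.2.2
          rw [e1]; exact hjB2 _
    rw [Finset.offDiag_card] at hinj
    have h5 : T.card * T.card - T.card = T.card * (T.card - 1) := by
      rw [Nat.mul_sub, mul_one]
    rw [h5] at hinj
    have h6 : (k + 1) * k ≤ T.card * (T.card - 1) := Nat.mul_le_mul hTc (by omega)
    have h7 : (k + 1) * k ≤ k ^ 2 := h6.trans (hinj.trans hoff)
    have := h.three
    nlinarith
  rw [hcF]
  have hsplit := Finset.card_filter_add_card_filter_not (s := F) (fun y => y ∈ m)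
  omega

/-- The arithmetic of the orbit lengths. -/
theorem arith_orbit (k M d e : ℕ) (hk : 3 ≤ k) (hM : M = k ^ 2 - k + 1) (hde : d * e = M ^ 2)
    (hd : d ≤ k ^ 2 + k + 1) : d ≤ M := by
  by_contra hlt
  push Not at hlt
  have hkk : k ≤ k ^ 2 := by nlinarith
  obtain ⟨a, ha⟩ : ∃ a, d = M + a := ⟨d - M, by omega⟩
  have ha0 : 0 < a := by omega
  have ha2 : a ≤ 2 * k := by omega
  have hkM : k * (k - 1) + 1 = M := by
    rw [hM]; zify [hkk, show 1 ≤ k by omega]; ring
  have hModd : M % 2 = 1 := by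
    have := Nat.even_mul_pred_self k
    rcases this with ⟨c, hc⟩
    omega
  have hdodd : d % 2 = 1 := by
    have h1 : (d * e) % 2 = 1 := by
      rw [hde, sq, Nat.mul_mod, hModd]
    rcases Nat.mod_two_eq_zero_or_one d with h | h
    · rw [Nat.mul_mod, h] at h1
      simp at h1
    · exact h
  have hda : d ∣ a ^ 2 := by
    have h1 : (d : ℤ) ∣ (a : ℤ) ^ 2 := by
      have h2 : (a : ℤ) ^ 2 = d * (e - d + 2 * a) := by
        have h3 : (d : ℤ) * e = (M : ℤ) ^ 2 := by exact_mod_cast hde
        have h4 : (d : ℤ) = M + a := by exact_mod_cast ha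
        linear_combination ((d : ℤ) - a + M) * h4 - h3
      rw [h2]; exact dvd_mul_right _ _
    exact_mod_cast h1
  obtain ⟨t, ht⟩ := hda
  have haeven : a % 2 = 0 := by omega
  have h4 : 4 ∣ d * t := by
    rw [← ht]
    obtain ⟨c, hc⟩ : ∃ c, a = 2 * c := ⟨a / 2, by omega⟩
    rw [hc]
    exact ⟨c ^ 2, by ring⟩
  have h4t : 4 ∣ t := by
    apply Nat.Coprime.dvd_of_dvd_mul_left _ h4
    have : Nat.Coprime 2 d := (Nat.coprime_two_left).2 (Nat.odd_iff.2 hdodd)
    exact (show (4 : ℕ) = 2 ^ 2 by norm_num) ▸ Nat.Coprime.pow_left 2 this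
  have ht0 : 0 < t := by
    rcases Nat.eq_zero_or_pos t with h0 | h0
    · rw [h0, mul_zero] at ht
      have := pow_pos ha0 2
      omega
    · exact h0
  have ht4 : 4 ≤ t := Nat.le_of_dvd ht0 h4t
  have h5 : 4 * d ≤ a ^ 2 := by rw [ht]; nlinarith
  have hMz : (M : ℤ) = (k : ℤ) ^ 2 - k + 1 := by rw [hM]; push_cast [Nat.cast_sub hkk]; ring
  have h6 : 4 * ((M : ℤ) + a) ≤ (a : ℤ) ^ 2 := by
    rw [ha] at h5; exact_mod_cast h5
  have h7 : (a : ℤ) ≤ 2 * k := by exact_mod_cast ha2
  have h8 : (0 : ℤ) < a := by exact_mod_cast ha0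
  have h9 : (3 : ℤ) ≤ k := by exact_mod_cast hk
  rw [hMz] at h6
  nlinarith

end

end Pool.Agent.T9h25.TH
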