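import Pool.Agent.T9h25.TH.Plane1

set_option autoImplicit false

namespace Pool.Agent.T9h25.TH

open Configuration

section
variable {P L G : Type} [Membership P L] [ProjectivePlane P L] [Group G]
    [MulAction G P] [MulAction G L] {k M : ℕ}

theorem stab_eq (h : Hyp P L G k M) {x y : P} (hy : y ∈ MulAction.orbit G x) :
    MulAction.stabilizer G y = MulAction.stabilizer G x := by
  ext g
  rw [MulAction.mem_stabilizer_iff, MulAction.mem_stabilizer_iff]
  exact ⟨fun hg => h.qp g y x (MulAction.mem_orbit_symm.1 hy) hg, fun hg => h.qp g x y hy hg⟩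

theorem Hyp.M_ge (h : Hyp P L G k M) : 7 ≤ M := by
  have := h.hM
  have h1 := h.three
  have h2 : 3 * k ≤ k ^ 2 := by nlinarith
  omega

theorem Hyp.finG (h : Hyp P L G k M) : Finite G := by
  apply Nat.finite_of_card_ne_zero
  rw [h.card]
  have := h.M_ge
  positivity

theorem orbit_card (h : Hyp P L G k M) (x : P) :
    Nat.card (MulAction.orbit G x) * Nat.card (MulAction.stabilizer G x) = M ^ 2 := by
  classical
  have := h.fin
  have := h.finG
  have : Fintype P := Fintype.ofFinite P
  have : Fintype G := Fintype.ofFinite G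
  have h1 := MulAction.card_orbit_mul_card_stabilizer_eq_card_group G x
  rw [← Nat.card_eq_fintype_card, ← Nat.card_eq_fintype_card, ← Nat.card_eq_fintype_card,
    h.card] at h1
  exact h1

theorem orbit_le (h : Hyp P L G k M) {x : P} (hx : MulAction.stabilizer G x ≠ ⊥) :
    Nat.card (MulAction.orbit G x) ≤ M := by
  have := h.fin
  apply arith_orbit k M _ _ h.three h.hM (orbit_card h x)
  obtain ⟨g, hg0⟩ := Subgroup.ne_bot_iff_exists_ne_one.1 hx
  have hg : (g : G) • x = x := g.2
  have hg1 : (g : G) ≠ 1 := fun he => hg0 (Subtype.ext he)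
  refine le_trans ?_ (fix_bound h hg1 hg)
  apply Nat.card_le_card_of_injective
    (fun y : MulAction.orbit G x => (⟨y.1, h.qp g x y.1 y.2 hg⟩ : {y : P // (g : G) • y = y}))
  intro y y' he
  have := congrArg Subtype.val he
  exact Subtype.ext this

theorem card_points_eq (h : Hyp P L G k M) : Nat.card P = M ^ 2 + 2 * k * M := by
  have := h.fin
  have := finite_lines P L
  have : Fintype P := Fintype.ofFinite P
  rw [Nat.card_eq_fintype_card, ProjectivePlane.card_points P L, h.ord, h.hM]
  have h3 := h.three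
  have hkk : k ≤ k ^ 2 := by nlinarith
  zify [hkk]
  ring

theorem card_lines_eq (h : Hyp P L G k M) : Nat.card L = M ^ 2 + 2 * k * M := by
  have := h.fin
  have := finite_lines P L
  have : Fintype L := Fintype.ofFinite L
  rw [Nat.card_eq_fintype_card, ProjectivePlane.card_lines P L, h.ord, h.hM]
  have h3 := h.three
  have hkk : k ≤ k ^ 2 := by nlinarith
  zify [hkk]
  ring

/-- The two kinds of point orbits. -/
theorem orbit_structure (h : Hyp P L G k M) :
    ∃ (x0 : P) (ι : Type) (_ : Fintype ι) (pt : ι → P),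
      MulAction.stabilizer G x0 = ⊥ ∧
      (∀ x : P, MulAction.stabilizer G x = ⊥ → x ∈ MulAction.orbit G x0) ∧
      Fintype.card ι = 2 * k ∧
      (∀ i, Nat.card (MulAction.stabilizer G (pt i)) = M) ∧
      (∀ i, Nat.card (MulAction.orbit G (pt i)) = M) ∧
      (∀ i j, i ≠ j → pt j ∉ MulAction.orbit G (pt i)) ∧
      (∀ x : P, MulAction.stabilizer G x ≠ ⊥ → ∃ i, x ∈ MulAction.orbit G (pt i)) := by
  classical
  have := h.fin
  have := h.finG
  have hM7 := h.M_ge
  have h3 := h.three
  have hkM : 2 * k < M := by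
    have := h.hM
    have h1 : 3 * k ≤ k ^ 2 := by nlinarith
    omega
  have : Fintype (MulAction.orbitRel.Quotient G P) := Fintype.ofFinite _
  have hΩ : Fintype.card (MulAction.orbitRel.Quotient G P) = 2 * k + 1 := by
    rw [← Nat.card_eq_fintype_card]; exact h.orbs
  set s : MulAction.orbitRel.Quotient G P → ℕ := fun ω => Nat.card (MulAction.orbit G ω.out) with hs
  have hsum : ∑ ω, s ω = M ^ 2 + 2 * k * M := by
    rw [← card_points_eq h, Nat.card_congr (MulAction.selfEquivSigmaOrbits G P), Nat.card_sigma]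
  set A := (Finset.univ : Finset (MulAction.orbitRel.Quotient G P)).filter
    (fun ω => MulAction.stabilizer G ω.out = ⊥) with hA
  set B := (Finset.univ : Finset (MulAction.orbitRel.Quotient G P)).filter
    (fun ω => ¬ MulAction.stabilizer G ω.out = ⊥) with hB
  have hAB : A.card + B.card = 2 * k + 1 := by
    rw [← hΩ, ← Finset.card_univ]
    exact Finset.card_filter_add_card_filter_not (s := Finset.univ) _
  have hsumAB : ∑ ω ∈ A, s ω + ∑ ω ∈ B, s ω = M ^ 2 + 2 * k * M := by
    rw [← hsum]
    exact Finset.sum_filter_add_sum_filter_not Finset.univ _ _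
  have hsA : ∀ ω ∈ A, s ω = M ^ 2 := by
    intro ω hω
    rw [hA, Finset.mem_filter] at hω
    have := orbit_card h ω.out
    rw [hω.2] at this
    simpa [hs] using this
  have hsB : ∀ ω ∈ B, s ω ≤ M := by
    intro ω hω
    rw [hB, Finset.mem_filter] at hω
    exact orbit_le h hω.2
  rw [Finset.sum_congr rfl hsA, Finset.sum_const, smul_eq_mul] at hsumAB
  have hB1 : ∑ ω ∈ B, s ω ≤ B.card * M := by
    have := Finset.sum_le_sum hsB
    rwa [Finset.sum_const, smul_eq_mul] at this
  have hA1 : A.card = 1 := by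
    rcases Nat.lt_trichotomy A.card 1 with h0 | h0 | h0
    · exfalso
      have hA0 : A.card = 0 := by omega
      have hBc : B.card = 2 * k + 1 := by omega
      rw [hA0, zero_mul, zero_add] at hsumAB
      rw [hBc, hsumAB] at hB1
      nlinarith
    · exact h0
    · exfalso
      have e0 : 2 * M ^ 2 ≤ A.card * M ^ 2 := Nat.mul_le_mul_right _ h0
      have e1 : 2 * k * M < M ^ 2 := by
        rw [sq]; exact Nat.mul_lt_mul_of_pos_right hkM (by omega)
      have e2 : 0 ≤ ∑ ω ∈ B, s ω := Nat.zero_le _
      linarith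
  have hBc : B.card = 2 * k := by omega
  rw [hA1, one_mul] at hsumAB
  have hsumB : ∑ ω ∈ B, s ω = 2 * k * M := by omega
  have hsB' : ∀ ω ∈ B, s ω = M := by
    intro ω hω
    by_contra hne
    have hlt : s ω < M := lt_of_le_of_ne (hsB ω hω) hne
    have := Finset.sum_lt_sum hsB ⟨ω, hω, hlt⟩
    rw [hsumB, Finset.sum_const, smul_eq_mul, hBc] at this
    exact lt_irrefl _ this
  obtain ⟨ω0, hω0⟩ := Finset.card_eq_one.1 hA1
  have hω0A : ω0 ∈ A := by rw [hω0]; exact Finset.mem_singleton_self _
  have hout : ∀ x : P, x ∈ MulAction.orbit G ((Quotient.mk'' x : MulAction.orbitRel.Quotient G P).out) := by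
    intro x
    have h1 : (Quotient.mk'' ((Quotient.mk'' x : MulAction.orbitRel.Quotient G P).out) :
        MulAction.orbitRel.Quotient G P) = Quotient.mk'' x := Quotient.out_eq' _
    have h2 := Quotient.exact' h1
    exact MulAction.mem_orbit_symm.1 h2
  refine ⟨ω0.out, {ω // ω ∈ B}, inferInstance, fun i => i.1.out, ?_, ?_, ?_, ?_, ?_, ?_, ?_⟩
  · rw [hA, Finset.mem_filter] at hω0A
    exact hω0A.2
  · intro x hx
    have h1 := hout x
    have h2 : (Quotient.mk'' x : MulAction.orbitRel.Quotient G P) ∈ A := by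
      rw [hA, Finset.mem_filter]
      exact ⟨Finset.mem_univ _, by rw [← stab_eq h h1]; exact hx⟩
    rw [hω0, Finset.mem_singleton] at h2
    rw [← h2]
    exact h1
  · rw [Fintype.card_coe, hBc]
  · rintro ⟨ω, hω⟩
    have h1 := orbit_card h ω.out
    have h2 : Nat.card (MulAction.orbit G ω.out) = M := hsB' ω hω
    rw [h2, sq] at h1
    exact Nat.eq_of_mul_eq_mul_left (by omega) h1
  · rintro ⟨ω, hω⟩
    exact hsB' ω hω
  · rintro ⟨ω, hω⟩ ⟨ω', hω'⟩ hne hmem
    apply hne
    rw [Subtype.mk.injEq]
    have h1 : (Quotient.mk'' ω'.out : MulAction.orbitRel.Quotient G P) = Quotient.mk'' ω.out :=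
      Quotient.sound' hmem
    have e1 : (Quotient.mk'' ω'.out : MulAction.orbitRel.Quotient G P) = ω' := Quotient.out_eq' ω'
    have e2 : (Quotient.mk'' ω.out : MulAction.orbitRel.Quotient G P) = ω := Quotient.out_eq' ω
    rw [e1, e2] at h1
    exact h1.symm
  · intro x hx
    have h1 := hout x
    refine ⟨⟨Quotient.mk'' x, ?_⟩, h1⟩
    rw [hB, Finset.mem_filter]
    exact ⟨Finset.mem_univ _, by rw [← stab_eq h h1]; exact hx⟩

end

end Pool.Agent.T9h25.TH
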