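import Pool.Agent.T9h25.TH.Plane2

set_option autoImplicit false

namespace Pool.Agent.T9h25.TH

open Configuration

/-- The data given by the orbits on points. -/
structure Orb (P L G : Type) [Membership P L] [ProjectivePlane P L] [Group G]
    [MulAction G P] [MulAction G L] (k M : ℕ) (ι : Type) [Fintype ι] (x0 : P) (pt : ι → P) :
    Prop where
  h : Hyp P L G k M
  reg0 : MulAction.stabilizer G x0 = ⊥
  reg : ∀ x : P, MulAction.stabilizer G x = ⊥ → x ∈ MulAction.orbit G x0
  cι : Fintype.card ι = 2 * k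
  cK : ∀ i, Nat.card (MulAction.stabilizer G (pt i)) = M
  cO : ∀ i, Nat.card (MulAction.orbit G (pt i)) = M
  dis : ∀ i j, i ≠ j → pt j ∉ MulAction.orbit G (pt i)
  irr : ∀ x : P, MulAction.stabilizer G x ≠ ⊥ → ∃ i, x ∈ MulAction.orbit G (pt i)

section
variable {P L G : Type} [Membership P L] [ProjectivePlane P L] [Group G]
    [MulAction G P] [MulAction G L] {k M : ℕ} {ι : Type} [Fintype ι] {x0 : P} {pt : ι → P}

theorem Orb.two_k (o : Orb P L G k M ι x0 pt) : 2 * k < M := by
  have := o.h.hM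
  have h3 := o.h.three
  have h1 : 3 * k ≤ k ^ 2 := by nlinarith
  omega

theorem Orb.k_sq (o : Orb P L G k M ι x0 pt) : k ^ 2 + 1 = M + k := by
  have := o.h.hM
  have h3 := o.h.three
  have h1 : 3 * k ≤ k ^ 2 := by nlinarith
  omega

theorem disj_orbit (o : Orb P L G k M ι x0 pt) {i j : ι} (hij : i ≠ j) {y : P}
    (hi : y ∈ MulAction.orbit G (pt i)) (hj : y ∈ MulAction.orbit G (pt j)) : False := by
  apply o.dis i j hij
  rw [← MulAction.orbit_eq_iff.2 hi]
  exact MulAction.mem_orbit_symm.1 hj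

theorem K_inf (o : Orb P L G k M ι x0 pt) {i j : ι} (hij : i ≠ j) :
    MulAction.stabilizer G (pt i) ⊓ MulAction.stabilizer G (pt j) = ⊥ := by
  have := o.h.fin
  rw [eq_bot_iff]
  rintro g ⟨hg1, hg2⟩
  rw [Subgroup.mem_bot]
  by_contra hne
  have hg1' : g • pt i = pt i := hg1
  have hg2' : g • pt j = pt j := hg2
  have hb := fix_bound o.h hne hg1'
  have hinj : Nat.card (MulAction.orbit G (pt i) ⊕ MulAction.orbit G (pt j)) ≤
      Nat.card {y : P // g • y = y} := by
    apply Nat.card_le_card_of_injective (fun z : MulAction.orbit G (pt i) ⊕ MulAction.orbit G (pt j) =>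
      (Sum.elim (fun y => (⟨y.1, o.h.qp g _ y.1 y.2 hg1'⟩ : {y : P // g • y = y}))
        (fun y => ⟨y.1, o.h.qp g _ y.1 y.2 hg2'⟩) z))
    rintro (⟨a, ha⟩ | ⟨a, ha⟩) (⟨b, hb⟩ | ⟨b, hb⟩) he
    · simp only [Sum.elim_inl, Subtype.mk.injEq] at he
      subst he; rfl
    · simp only [Sum.elim_inl, Sum.elim_inr, Subtype.mk.injEq] at he
      subst he
      exact (disj_orbit o hij ha hb).elim
    · simp only [Sum.elim_inl, Sum.elim_inr, Subtype.mk.injEq] at he
      subst he
      exact (disj_orbit o hij hb ha).elim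
    · simp only [Sum.elim_inr, Subtype.mk.injEq] at he
      subst he; rfl
  rw [Nat.card_sum, o.cO, o.cO] at hinj
  have h1 := o.k_sq
  have h2 := o.two_k
  omega

theorem K_normal (o : Orb P L G k M ι x0 pt) (i : ι) (g a : G)
    (ha : a ∈ MulAction.stabilizer G (pt i)) : g * a * g⁻¹ ∈ MulAction.stabilizer G (pt i) := by
  have ha' : a • pt i = pt i := ha
  have h1 := o.h.qp a (pt i) (g⁻¹ • pt i) (MulAction.mem_orbit _ _) ha'
  rw [MulAction.mem_stabilizer_iff, mul_smul, mul_smul, h1, smul_inv_smul]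

theorem K_comm (o : Orb P L G k M ι x0 pt) {i j : ι} (hij : i ≠ j) {a b : G}
    (ha : a ∈ MulAction.stabilizer G (pt i)) (hb : b ∈ MulAction.stabilizer G (pt j)) :
    a * b = b * a := by
  have h1 : a * b * a⁻¹ * b⁻¹ ∈
      MulAction.stabilizer G (pt i) ⊓ MulAction.stabilizer G (pt j) := by
    constructor
    · have := K_normal o i b a⁻¹ ((MulAction.stabilizer G (pt i)).inv_mem ha)
      have h2 := (MulAction.stabilizer G (pt i)).mul_mem ha this
      simpa [mul_assoc] using h2
    · have := K_normal o j a b hb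
      exact (MulAction.stabilizer G (pt j)).mul_mem this
        ((MulAction.stabilizer G (pt j)).inv_mem hb)
  rw [K_inf o hij, Subgroup.mem_bot] at h1
  have h2 : a * b * a⁻¹ = b := by rw [mul_inv_eq_one] at h1; exact h1
  rw [mul_inv_eq_iff_eq_mul] at h2
  exact h2

theorem K_decomp (o : Orb P L G k M ι x0 pt) {i j : ι} (hij : i ≠ j) (g : G) :
    ∃ a ∈ MulAction.stabilizer G (pt i), ∃ b ∈ MulAction.stabilizer G (pt j), a * b = g := by
  have := o.h.finG
  have hc : Subgroup.IsComplement' (MulAction.stabilizer G (pt i)) (MulAction.stabilizer G (pt j)) := by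
    apply Subgroup.isComplement'_of_card_mul_and_disjoint
    · rw [o.cK, o.cK, o.h.card, sq]
    · rw [disjoint_iff]; exact K_inf o hij
  obtain ⟨⟨a, b⟩, hab⟩ := hc.surjective g
  exact ⟨a, a.2, b, b.2, hab⟩

theorem exists_two (o : Orb P L G k M ι x0 pt) (l : ι) : ∃ i j : ι, i ≠ j ∧ i ≠ l ∧ j ≠ l := by
  classical
  have h1 : 1 < ((Finset.univ : Finset ι).erase l).card := by
    rw [Finset.card_erase_of_mem (Finset.mem_univ _), Finset.card_univ, o.cι]
    have := o.h.three
    omega
  obtain ⟨i, hi, j, hj, hij⟩ := Finset.one_lt_card.1 h1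
  exact ⟨i, j, hij, Finset.ne_of_mem_erase hi, Finset.ne_of_mem_erase hj⟩

theorem K_central (o : Orb P L G k M ι x0 pt) (l : ι) {c : G}
    (hc : c ∈ MulAction.stabilizer G (pt l)) (g : G) : c * g = g * c := by
  obtain ⟨i, j, hij, hil, hjl⟩ := exists_two o l
  obtain ⟨a, ha, b, hb, rfl⟩ := K_decomp o hij g
  rw [← mul_assoc, K_comm o (Ne.symm hil) hc ha, mul_assoc, K_comm o (Ne.symm hjl) hc hb, mul_assoc]

theorem G_comm (o : Orb P L G k M ι x0 pt) (g g' : G) : g * g' = g' * g := by
  have hne : Nonempty ι := by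
    rw [← Fintype.card_pos_iff, o.cι]; have := o.h.three; omega
  obtain ⟨l⟩ := hne
  obtain ⟨i, j, hij, -, -⟩ := exists_two o l
  obtain ⟨a, ha, b, hb, rfl⟩ := K_decomp o hij g
  rw [mul_assoc, K_central o j hb, ← mul_assoc, K_central o i ha, mul_assoc]

theorem mem_orbit_of_fix (o : Orb P L G k M ι x0 pt) {i : ι} {g : G}
    (hg : g ∈ MulAction.stabilizer G (pt i)) (hg1 : g ≠ 1) {y : P} (hy : g • y = y) :
    y ∈ MulAction.orbit G (pt i) := by
  have h1 : MulAction.stabilizer G y ≠ ⊥ := by
    intro he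
    have : g ∈ MulAction.stabilizer G y := hy
    rw [he, Subgroup.mem_bot] at this
    exact hg1 this
  obtain ⟨j, hj⟩ := o.irr y h1
  by_cases hij : i = j
  · rw [hij]; exact hj
  · exfalso
    have h2 : g ∈ MulAction.stabilizer G (pt j) := by
      rw [← stab_eq o.h hj]; exact hy
    have h3 : g ∈ MulAction.stabilizer G (pt i) ⊓ MulAction.stabilizer G (pt j) := ⟨hg, h2⟩
    rw [K_inf o hij, Subgroup.mem_bot] at h3
    exact hg1 h3

theorem exists_K (o : Orb P L G k M ι x0 pt) (i : ι) :
    ∃ g ∈ MulAction.stabilizer G (pt i), g ≠ 1 := by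
  have := o.h.finG
  have h1 : MulAction.stabilizer G (pt i) ≠ ⊥ := by
    intro he
    have h2 := o.cK i
    rw [he, Subgroup.card_bot] at h2
    have := o.h.M_ge
    omega
  obtain ⟨g, hg⟩ := Subgroup.ne_bot_iff_exists_ne_one.1 h1
  exact ⟨g, g.2, fun he => hg (Subtype.ext he)⟩

/-- The lines fixed by `K i`. -/
def TL (pt : ι → P) (G : Type) [Group G] [MulAction G P] (L : Type) [MulAction G L] (i : ι) (l : L) :
    Prop := ∀ g ∈ MulAction.stabilizer G (pt i), g • l = l

/-- `K i` acts freely on the points off its orbit. -/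
theorem free_off (o : Orb P L G k M ι x0 pt) {i : ι} {y : P}
    (hy : y ∉ MulAction.orbit G (pt i)) {a b : G} (ha : a ∈ MulAction.stabilizer G (pt i))
    (hb : b ∈ MulAction.stabilizer G (pt i)) (he : a • y = b • y) : a = b := by
  by_contra hne
  apply hy
  have h1 : b⁻¹ * a ∈ MulAction.stabilizer G (pt i) :=
    (MulAction.stabilizer G (pt i)).mul_mem ((MulAction.stabilizer G (pt i)).inv_mem hb) ha
  apply mem_orbit_of_fix o h1
  · intro h2
    exact hne (inv_mul_eq_one.1 h2).symm
  · rw [mul_smul, he, inv_smul_smul]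

theorem exists_off (o : Orb P L G k M ι x0 pt) (i : ι) (l : L) :
    ∃ y : P, y ∈ l ∧ y ∉ MulAction.orbit G (pt i) := by
  have := o.h.fin
  by_contra hcon
  push Not at hcon
  have h1 : Nat.card {p : P // p ∈ l} ≤ Nat.card (MulAction.orbit G (pt i)) := by
    apply Nat.card_le_card_of_injective
      (fun y : {p : P // p ∈ l} => (⟨y.1, hcon y.1 y.2⟩ : MulAction.orbit G (pt i)))
    intro a b he
    have := congrArg Subtype.val he
    exact Subtype.ext this
  rw [card_on_line o.h, o.cO, o.k_sq] at h1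
  have := o.h.three
  omega

theorem off_trans (o : Orb P L G k M ι x0 pt) {i : ι} {l : L} (hl : TL pt G L i l) {y z : P}
    (hy : y ∈ l) (hy' : y ∉ MulAction.orbit G (pt i)) (hz : z ∈ l)
    (hz' : z ∉ MulAction.orbit G (pt i)) : ∃ g ∈ MulAction.stabilizer G (pt i), g • y = z := by
  have := o.h.fin
  have := o.h.finG
  by_contra hcon
  push Not at hcon
  have hmem : ∀ w : P, w ∈ l → ∀ g ∈ MulAction.stabilizer G (pt i), g • w ∈ l := by
    intro w hw g hg
    have := (o.h.inc g w l).1 hw
    rwa [hl g hg] at this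
  have h1 : Nat.card (MulAction.stabilizer G (pt i) ⊕ MulAction.stabilizer G (pt i)) ≤
      Nat.card {p : P // p ∈ l} := by
    apply Nat.card_le_card_of_injective
      (fun w : MulAction.stabilizer G (pt i) ⊕ MulAction.stabilizer G (pt i) =>
        (Sum.elim (fun g : MulAction.stabilizer G (pt i) =>
            (⟨(g : G) • y, hmem y hy g g.2⟩ : {p : P // p ∈ l}))
          (fun g : MulAction.stabilizer G (pt i) => ⟨(g : G) • z, hmem z hz g g.2⟩) w))
    rintro (a | a) (b | b) he
    · simp only [Sum.elim_inl, Subtype.mk.injEq] at he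
      have := free_off o hy' a.2 b.2 he
      rw [Subtype.ext this]
    · exfalso
      simp only [Sum.elim_inl, Sum.elim_inr, Subtype.mk.injEq] at he
      apply hcon ((b : G)⁻¹ * a) ((MulAction.stabilizer G (pt i)).mul_mem
        ((MulAction.stabilizer G (pt i)).inv_mem b.2) a.2)
      rw [mul_smul, he, inv_smul_smul]
    · exfalso
      simp only [Sum.elim_inl, Sum.elim_inr, Subtype.mk.injEq] at he
      apply hcon ((a : G)⁻¹ * b) ((MulAction.stabilizer G (pt i)).mul_mem
        ((MulAction.stabilizer G (pt i)).inv_mem a.2) b.2)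
      rw [mul_smul, ← he, inv_smul_smul]
    · simp only [Sum.elim_inr, Subtype.mk.injEq] at he
      have := free_off o hz' a.2 b.2 he
      rw [Subtype.ext this]
  rw [Nat.card_sum, o.cK, card_on_line o.h, o.k_sq] at h1
  have := o.two_k
  omega

theorem card_off (o : Orb P L G k M ι x0 pt) {i : ι} {l : L} (hl : TL pt G L i l) :
    Nat.card {p : P // p ∈ l ∧ p ∉ MulAction.orbit G (pt i)} = M := by
  obtain ⟨y, hy, hy'⟩ := exists_off o i l
  rw [← o.cK i]
  symm
  have hmem : ∀ g ∈ MulAction.stabilizer G (pt i), g • y ∈ l ∧ g • y ∉ MulAction.orbit G (pt i) := by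
    intro g hg
    constructor
    · have := (o.h.inc g y l).1 hy
      rwa [hl g hg] at this
    · intro h1
      apply hy'
      have := MulAction.mem_orbit_of_mem_orbit g⁻¹ h1
      rwa [inv_smul_smul] at this
  apply Nat.card_congr
  refine Equiv.ofBijective (fun g : MulAction.stabilizer G (pt i) =>
    (⟨(g : G) • y, hmem g g.2⟩ : {p : P // p ∈ l ∧ p ∉ MulAction.orbit G (pt i)})) ⟨?_, ?_⟩
  · intro a b he
    simp only [Subtype.mk.injEq] at he
    exact Subtype.ext (free_off o hy' a.2 b.2 he)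
  · rintro ⟨z, hz, hz'⟩
    obtain ⟨g, hg, hgz⟩ := off_trans o hl hy hy' hz hz'
    exact ⟨⟨g, hg⟩, by simp [hgz]⟩

theorem card_in (o : Orb P L G k M ι x0 pt) {i : ι} {l : L} (hl : TL pt G L i l) :
    Nat.card {p : P // p ∈ l ∧ p ∈ MulAction.orbit G (pt i)} = k := by
  classical
  have := o.h.fin
  have : Fintype P := Fintype.ofFinite P
  have h1 := card_off o hl
  have h2 := card_on_line o.h l
  rw [Nat.card_eq_fintype_card, Fintype.card_subtype] at h1 h2 ⊢
  have h3 := Finset.card_filter_add_card_filter_not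
    (s := Finset.univ.filter (fun p : P => p ∈ l)) (fun p => p ∈ MulAction.orbit G (pt i))
  rw [Finset.filter_filter, Finset.filter_filter, h1, h2, o.k_sq] at h3
  omega

/-- The points of a line of the subplane off the subplane have trivial stabilizer. -/
theorem off_reg (o : Orb P L G k M ι x0 pt) {i : ι} {l : L} (hl : TL pt G L i l) {y : P}
    (hy : y ∈ l) (hy' : y ∉ MulAction.orbit G (pt i)) : MulAction.stabilizer G y = ⊥ := by
  have := o.h.fin
  have := o.h.finG
  by_contra hne
  obtain ⟨j, hj⟩ := o.irr y hne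
  -- the whole orbit of `pt j` lies on `l`
  have hall : ∀ z ∈ MulAction.orbit G (pt j), z ∈ l := by
    have hbij : Function.Bijective (fun g : MulAction.stabilizer G (pt i) =>
        (⟨(g : G) • y, MulAction.mem_orbit_of_mem_orbit (g : G) hj⟩ : MulAction.orbit G (pt j))) := by
      rw [Nat.bijective_iff_injective_and_card]
      refine ⟨?_, by rw [o.cK, o.cO]⟩
      intro a b he
      simp only [Subtype.mk.injEq] at he
      exact Subtype.ext (free_off o hy' a.2 b.2 he)
    intro z hz
    obtain ⟨g, hg⟩ := hbij.2 ⟨z, hz⟩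
    have h1 : (g : G) • y = z := congrArg Subtype.val hg
    rw [← h1]
    have := (o.h.inc g y l).1 hy
    rwa [hl g g.2] at this
  obtain ⟨g0, hg0⟩ := o.h.nofl l
  obtain ⟨g1, hg1⟩ := o.h.nofp (pt j)
  apply hg0
  refine line_uniq (p := g0 • pt j) (q := g0 • (g1 • pt j)) ?_ ?_ ?_ ?_ ?_
  · intro he
    exact hg1 (MulAction.injective g0 he).symm
  · exact (o.h.inc g0 _ l).1 (hall _ (MulAction.mem_orbit_self _))
  · exact (o.h.inc g0 _ l).1 (hall _ (MulAction.mem_orbit _ _))
  · exact hall _ (MulAction.mem_orbit _ _)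
  · exact hall _ (MulAction.mem_orbit_of_mem_orbit g0 (MulAction.mem_orbit _ _))

theorem TL_of_two (o : Orb P L G k M ι x0 pt) {i : ι} {l : L} {p q : P} (hpq : p ≠ q)
    (hp : p ∈ MulAction.orbit G (pt i)) (hq : q ∈ MulAction.orbit G (pt i)) (hpl : p ∈ l)
    (hql : q ∈ l) : TL pt G L i l := by
  intro g hg
  exact fix_join o.h hpq (o.h.qp g _ p hp hg) (o.h.qp g _ q hq hg) hpl hql

open Classical in
theorem card_TL (o : Orb P L G k M ι x0 pt) (i : ι) : Nat.card {l : L // TL pt G L i l} = M := by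
  have := o.h.fin
  have := finite_lines P L
  have : Fintype P := Fintype.ofFinite P
  have : Fintype L := Fintype.ofFinite L
  obtain ⟨O, memO, hOc⟩ : ∃ O : Finset P, (∀ p, p ∈ O ↔ p ∈ MulAction.orbit G (pt i)) ∧
      O.card = M := by
    refine ⟨Finset.univ.filter (fun p => p ∈ MulAction.orbit G (pt i)), by intro p; simp, ?_⟩
    rw [← o.cO i, Nat.card_eq_fintype_card, ← Set.toFinset_card]
    congr 1
    ext p
    simp
  obtain ⟨Tl, memT, hTc⟩ : ∃ Tl : Finset L, (∀ l, l ∈ Tl ↔ TL pt G L i l) ∧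
      Nat.card {l : L // TL pt G L i l} = Tl.card := by
    refine ⟨Finset.univ.filter (fun l => TL pt G L i l), by intro p; simp, ?_⟩
    rw [Nat.card_eq_fintype_card, Fintype.card_subtype]
  have hin : ∀ l ∈ Tl, (O.filter (fun p => p ∈ l)).offDiag.card = k * k - k := by
    intro l hl
    rw [Finset.offDiag_card]
    have h1 := card_in o ((memT l).1 hl)
    rw [Nat.card_eq_fintype_card, Fintype.card_subtype] at h1
    have h2 : O.filter (fun p => p ∈ l) =
        Finset.univ.filter (fun p : P => p ∈ l ∧ p ∈ MulAction.orbit G (pt i)) := by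
      ext p
      rw [Finset.mem_filter, Finset.mem_filter, memO]
      simp [and_comm]
    rw [h2, h1]
  have hun : O.offDiag = Tl.biUnion (fun l => (O.filter (fun p => p ∈ l)).offDiag) := by
    ext ⟨p, q⟩
    constructor
    · intro hpq
      obtain ⟨hp, hq, hpq⟩ := Finset.mem_offDiag.1 hpq
      simp only at hp hq hpq
      obtain ⟨l, hpl, hql⟩ := exists_join (L := L) hpq
      rw [Finset.mem_biUnion]
      refine ⟨l, (memT l).2 (TL_of_two o hpq ((memO p).1 hp) ((memO q).1 hq) hpl hql), ?_⟩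
      exact Finset.mem_offDiag.2 ⟨Finset.mem_filter.2 ⟨hp, hpl⟩, Finset.mem_filter.2 ⟨hq, hql⟩, hpq⟩
    · intro hpq
      rw [Finset.mem_biUnion] at hpq
      obtain ⟨l, hl, hpq⟩ := hpq
      obtain ⟨h1, h2, h3⟩ := Finset.mem_offDiag.1 hpq
      exact Finset.mem_offDiag.2 ⟨(Finset.mem_filter.1 h1).1, (Finset.mem_filter.1 h2).1, h3⟩
  have hcount := congrArg Finset.card hun
  rw [Finset.card_biUnion, Finset.sum_congr rfl hin, Finset.sum_const, smul_eq_mul,
    Finset.offDiag_card, hOc] at hcount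
  · rw [hTc]
    have h1 := o.k_sq
    have h2 : k * k - k = M - 1 := by
      rw [← sq]; omega
    have h3 : M * M - M = M * (M - 1) := by rw [Nat.mul_sub, mul_one]
    rw [h2, h3] at hcount
    have := o.h.M_ge
    exact (Nat.eq_of_mul_eq_mul_right (by omega) hcount).symm
  · intro l _ l' _ hne
    rw [Function.onFun, Finset.disjoint_left]
    rintro ⟨p, q⟩ h1 h2
    obtain ⟨a1, a2, a3⟩ := Finset.mem_offDiag.1 h1
    obtain ⟨b1, b2, b3⟩ := Finset.mem_offDiag.1 h2
    exact hne (line_uniq a3 (Finset.mem_filter.1 a1).2 (Finset.mem_filter.1 a2).2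
      (Finset.mem_filter.1 b1).2 (Finset.mem_filter.1 b2).2)

open Classical in
/-- Every point with trivial stabilizer is on a line of each of the subplanes. -/
theorem exists_TL (o : Orb P L G k M ι x0 pt) (i : ι) {x : P}
    (hx : MulAction.stabilizer G x = ⊥) : ∃ l : L, TL pt G L i l ∧ x ∈ l := by
  have := o.h.fin
  have := o.h.finG
  have := finite_lines P L
  have : Fintype P := Fintype.ofFinite P
  have : Fintype L := Fintype.ofFinite L
  set Rg : Finset P := Finset.univ.filter (fun p => MulAction.stabilizer G p = ⊥) with hRg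
  set Tl : Finset L := Finset.univ.filter (fun l => TL pt G L i l) with hTl
  have hRc : Rg.card = M ^ 2 := by
    have h1 := orbit_card o.h x0
    rw [o.reg0, Subgroup.card_bot, mul_one] at h1
    rw [← h1, Nat.card_eq_fintype_card, ← Set.toFinset_card]
    congr 1
    ext p
    simp only [hRg, Finset.mem_filter, Finset.mem_univ, true_and, Set.mem_toFinset]
    constructor
    · exact o.reg p
    · intro hp
      rw [stab_eq o.h hp, o.reg0]
  have hTc : Tl.card = M := by
    rw [← card_TL o i, Nat.card_eq_fintype_card, Fintype.card_subtype]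
  have hnon : ∀ p ∈ MulAction.orbit G (pt i), MulAction.stabilizer G p ≠ ⊥ := by
    intro p hp he
    rw [stab_eq o.h hp] at he
    have := o.cK i
    rw [he, Subgroup.card_bot] at this
    have := o.h.M_ge
    omega
  have hline : ∀ l ∈ Tl, (Rg.filter (fun p => p ∈ l)).card = M := by
    intro l hl
    rw [hTl, Finset.mem_filter] at hl
    rw [← card_off o hl.2, Nat.card_eq_fintype_card, Fintype.card_subtype]
    congr 1
    ext p
    simp only [hRg, Finset.mem_filter, Finset.mem_univ, true_and]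
    constructor
    · rintro ⟨h1, h2⟩
      exact ⟨h2, fun h3 => hnon p h3 h1⟩
    · rintro ⟨h1, h2⟩
      exact ⟨off_reg o hl.2 h1 h2, h1⟩
  have hdis : ∀ l ∈ Tl, ∀ l' ∈ Tl, l ≠ l' →
      Disjoint (Rg.filter (fun p => p ∈ l)) (Rg.filter (fun p => p ∈ l')) := by
    intro l hl l' hl' hne
    rw [Finset.disjoint_left]
    intro p h1 h2
    rw [Finset.mem_filter] at h1 h2
    rw [hTl, Finset.mem_filter] at hl hl'
    obtain ⟨g, hg, hg1⟩ := exists_K o i
    have h3 : g • p = p := fix_meet o.h hne (hl.2 g hg) (hl'.2 g hg) h1.2 h2.2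
    have h4 := h1.1
    rw [hRg, Finset.mem_filter] at h4
    have h5 : g ∈ MulAction.stabilizer G p := h3
    rw [h4.2, Subgroup.mem_bot] at h5
    exact hg1 h5
  have hsub : Tl.biUnion (fun l => Rg.filter (fun p => p ∈ l)) ⊆ Rg := by
    intro p hp
    rw [Finset.mem_biUnion] at hp
    obtain ⟨l, -, hl⟩ := hp
    exact (Finset.mem_filter.1 hl).1
  have heq : Tl.biUnion (fun l => Rg.filter (fun p => p ∈ l)) = Rg := by
    apply Finset.eq_of_subset_of_card_le hsub
    rw [Finset.card_biUnion hdis, Finset.sum_congr rfl hline, Finset.sum_const, hTc, hRc,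
      smul_eq_mul, sq]
  have hxR : x ∈ Rg := by rw [hRg, Finset.mem_filter]; exact ⟨Finset.mem_univ _, hx⟩
  rw [← heq, Finset.mem_biUnion] at hxR
  obtain ⟨l, hl, hxl⟩ := hxR
  rw [hTl, Finset.mem_filter] at hl
  exact ⟨l, hl.2, (Finset.mem_filter.1 hxl).2⟩

/-- A line fixed by an element which is not the identity is a line of a subplane. -/
theorem TL_of_fix (o : Orb P L G k M ι x0 pt) {g : G} (hg : g ≠ 1) {l : L} (hl : g • l = l) :
    ∃ i, TL pt G L i l := by
  obtain ⟨h1, hh1⟩ := o.h.nofl l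
  obtain ⟨Z, hZ1, hZ2⟩ := exists_meet (P := P) hh1
  have hgl' : g • (h1 • l) = h1 • l := o.h.ql g l _ (MulAction.mem_orbit l h1) hl
  have hgZ : g • Z = Z := fix_meet o.h hh1 hgl' hl hZ1 hZ2
  have hZst : MulAction.stabilizer G Z ≠ ⊥ := by
    intro he
    have : g ∈ MulAction.stabilizer G Z := hgZ
    rw [he, Subgroup.mem_bot] at this
    exact hg this
  obtain ⟨i, hi⟩ := o.irr Z hZst
  have hgK : g ∈ MulAction.stabilizer G (pt i) := by
    rw [← stab_eq o.h hi]; exact hgZ
  refine ⟨i, ?_⟩
  -- another point of the orbit on `l`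
  have hex : ∃ h2 : G, Z ∉ h2 • l := by
    by_contra hcon
    push Not at hcon
    obtain ⟨c, hc⟩ := o.h.nofp Z
    apply hc
    have e1 : ∀ h2 : G, c • Z ∈ h2 • l := by
      intro h2
      have := (o.h.inc c Z ((c⁻¹ * h2) • l)).1 (hcon _)
      rwa [smul_smul, mul_inv_cancel_left] at this
    have e2 := e1 1
    rw [one_smul] at e2
    exact point_uniq hh1 (e1 h1) e2 hZ1 hZ2
  obtain ⟨h2, hh2⟩ := hex
  have hne : h2 • l ≠ l := by
    intro he
    apply hh2
    rw [he]; exact hZ2
  obtain ⟨W, hW1, hW2⟩ := exists_meet (P := P) hne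
  have hgl2 : g • (h2 • l) = h2 • l := o.h.ql g l _ (MulAction.mem_orbit l h2) hl
  have hgW : g • W = W := fix_meet o.h hne hgl2 hl hW1 hW2
  have hWZ : W ≠ Z := by
    rintro rfl
    exact hh2 hW1
  exact TL_of_two o hWZ (mem_orbit_of_fix o hgK hg hgW) hi hW2 hZ2

theorem line_orbit_card (o : Orb P L G k M ι x0 pt) {l : L}
    (hl : MulAction.stabilizer G l = ⊥) : Nat.card (MulAction.orbit G l) = M ^ 2 := by
  classical
  have := o.h.fin
  have := finite_lines P L
  have := o.h.finG
  have : Fintype L := Fintype.ofFinite L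
  have : Fintype G := Fintype.ofFinite G
  have h1 := MulAction.card_orbit_mul_card_stabilizer_eq_card_group G l
  rw [← Nat.card_eq_fintype_card, ← Nat.card_eq_fintype_card, ← Nat.card_eq_fintype_card,
    o.h.card, hl, Subgroup.card_bot, mul_one] at h1
  exact h1

open Classical in
theorem exists_reg_line (o : Orb P L G k M ι x0 pt) :
    ∃ l0 : L, MulAction.stabilizer G l0 = ⊥ ∧
      ∀ l : L, MulAction.stabilizer G l = ⊥ → l ∈ MulAction.orbit G l0 := by
  have := o.h.fin
  have := finite_lines P L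
  have := o.h.finG
  have : Fintype L := Fintype.ofFinite L
  have hM := o.h.M_ge
  have hex : ∃ l0 : L, ∀ i, ¬ TL pt G L i l0 := by
    by_contra hcon
    push Not at hcon
    have h1 : (Finset.univ : Finset L) ⊆
        (Finset.univ : Finset ι).biUnion (fun i => Finset.univ.filter (fun l => TL pt G L i l)) := by
      intro l _
      obtain ⟨i, hi⟩ := hcon l
      rw [Finset.mem_biUnion]
      exact ⟨i, Finset.mem_univ _, by rw [Finset.mem_filter]; exact ⟨Finset.mem_univ _, hi⟩⟩
    have h2 := Finset.card_le_card h1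
    have h3 := h2.trans Finset.card_biUnion_le
    have h4 : ∀ i ∈ (Finset.univ : Finset ι),
        (Finset.univ.filter (fun l : L => TL pt G L i l)).card = M := by
      intro i _
      rw [← card_TL o i, Nat.card_eq_fintype_card, Fintype.card_subtype]
    rw [Finset.sum_congr rfl h4, Finset.sum_const, Finset.card_univ, Finset.card_univ, o.cι,
      ← Nat.card_eq_fintype_card, card_lines_eq o.h, smul_eq_mul] at h3
    have : 0 < M ^ 2 := by positivity
    omega
  obtain ⟨l0, hl0⟩ := hex
  have hst : MulAction.stabilizer G l0 = ⊥ := by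
    by_contra hne
    obtain ⟨g, hg⟩ := Subgroup.ne_bot_iff_exists_ne_one.1 hne
    obtain ⟨i, hi⟩ := TL_of_fix o (g := (g : G)) (fun he => hg (Subtype.ext he)) g.2
    exact hl0 i hi
  refine ⟨l0, hst, ?_⟩
  intro l hl
  by_contra hne
  have h1 : Nat.card (MulAction.orbit G l0 ⊕ MulAction.orbit G l) ≤ Nat.card L := by
    apply Nat.card_le_card_of_injective (fun z : MulAction.orbit G l0 ⊕ MulAction.orbit G l =>
      (Sum.elim (fun y => y.1) (fun y => y.1) z : L))
    have hno : ∀ a : L, a ∈ MulAction.orbit G l0 → a ∈ MulAction.orbit G l → False := by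
      intro a ha hb
      apply hne
      rw [← MulAction.orbit_eq_iff.2 ha]
      exact MulAction.mem_orbit_symm.1 hb
    rintro (⟨a, ha⟩ | ⟨a, ha⟩) (⟨b, hb⟩ | ⟨b, hb⟩) he
    · simp only [Sum.elim_inl] at he
      subst he; rfl
    · simp only [Sum.elim_inl, Sum.elim_inr] at he
      subst he
      exact (hno _ ha hb).elim
    · simp only [Sum.elim_inl, Sum.elim_inr] at he
      subst he
      exact (hno _ hb ha).elim
    · simp only [Sum.elim_inr] at he
      subst he; rfl
  rw [Nat.card_sum, line_orbit_card o hst, line_orbit_card o hl, card_lines_eq o.h] at h1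
  have h2 := o.two_k
  have e1 : 2 * k * M < M ^ 2 := by
    rw [sq]; exact Nat.mul_lt_mul_of_pos_right h2 (by omega)
  omega

end

end Pool.Agent.T9h25.TH
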